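import Pool.Agent.Helper99.EXC.Defs

/-!
# MKV: excited walks whose cookies are updated site by site

A system `U`: every site `z` has a state `e` in `E`; at a visit of `z` the walk steps in the first coordinate
with probability `U.f z e` (each sign half of it), otherwise in the second coordinate, and independently the
state of `z` becomes `U.nx z e i` with probability `U.wt z e i`, `i : ι`.
-/

open Finset

namespace Pool.Agent.Helper99.MKV

open Pool.Agent.Helper99.ERW Pool.Agent.Helper99.EXC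

/-- Site-wise updated cookies. -/
structure Sys (E ι : Type*) where
  /-- new state -/
  nx : Site 2 → E → ι → E
  /-- weights of the updates -/
  wt : Site 2 → E → ι → ℝ
  /-- probability of a horizontal step -/
  f : Site 2 → E → ℝ

/-- The weights are probabilities. -/
structure Sys.Ok {E ι : Type*} [Fintype ι] (U : Sys E ι) : Prop where
  wt0 : ∀ z e i, 0 ≤ U.wt z e i
  wt1 : ∀ z e, ∑ i, U.wt z e i = 1
  f0 : ∀ z e, 0 ≤ U.f z e
  f1 : ∀ z e, U.f z e ≤ 1

/-- States: current site and the states of all sites. -/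
abbrev MSt (E : Type*) := Site 2 × (Site 2 → E)

section defs

variable {E ι : Type*} [Fintype ι] (U : Sys E ι)

/-- The state after a step in direction `e` and the update `i`. -/
def nxt (s : MSt E) (i : ι) (e : Dir 2) : MSt E :=
  (s.1 + vec e, Function.update s.2 s.1 (U.nx s.1 (s.2 s.1) i))

/-- Mean of `g` after an update of the state `e` of the site `z`. -/
noncomputable def av (z : Site 2) (g : E → ℝ) (e : E) : ℝ := ∑ i, U.wt z e i * g (U.nx z e i)

/-- One step of the walk. -/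
noncomputable def stp (F : MSt E → ℝ) (s : MSt E) : ℝ :=
  ∑ i, U.wt s.1 (s.2 s.1) i *
    (U.f s.1 (s.2 s.1) / 2 * (F (nxt U s i (0, true)) + F (nxt U s i (0, false))) +
      (1 - U.f s.1 (s.2 s.1)) / 2 * (F (nxt U s i (1, true)) + F (nxt U s i (1, false))))

/-- One step of the walk stopped when it has left `Λ`. -/
noncomputable def KK (Λ : Finset (Site 2)) (F : MSt E → ℝ) (s : MSt E) : ℝ :=
  if s.1 ∈ Λ then stp U F s else F s

/-- `g` on the states inside `Λ`, zero outside. -/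
noncomputable def inn (Λ : Finset (Site 2)) (g : MSt E → ℝ) (s : MSt E) : ℝ :=
  if s.1 ∈ Λ then g s else 0

/-- Expectation of `F` of the state at time `N` (walk stopped outside `Λ`). -/
noncomputable def Ex (Λ : Finset (Site 2)) (N : ℕ) (F : MSt E → ℝ) : MSt E → ℝ := (KK U Λ)^[N] F

/-- Expected reward `g` collected before time `N` and before the exit from `Λ`. -/
noncomputable def Rw (Λ : Finset (Site 2)) (N : ℕ) (g : MSt E → ℝ) (s : MSt E) : ℝ :=
  ∑ m ∈ range N, Ex U Λ m (inn Λ g) s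

/-- Probability to be at `0` at one of the times `0, ..., N` (no stopping). -/
noncomputable def hp : ℕ → MSt E → ℝ
  | 0, s => if s.1 = 0 then 1 else 0
  | N + 1, s => if s.1 = 0 then 1 else stp U (hp N) s

/-- Excess of the current cookie. -/
noncomputable def dd (a : ℝ) (s : MSt E) : ℝ := U.f s.1 (s.2 s.1) - a

/-- Expected product of the increments of `F` and `G`. -/
noncomputable def Gam (F G : MSt E → ℝ) (s : MSt E) : ℝ :=
  stp U (fun t => (F t - F s) * (G t - G s)) s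

/-- Drift of `F`. -/
noncomputable def Dr (F : MSt E → ℝ) (s : MSt E) : ℝ := stp U F s - F s

end defs

section lin

variable {E ι : Type*} [Fintype ι] {U : Sys E ι} (Λ : Finset (Site 2))

lemma stp_add (U : Sys E ι) (F G : MSt E → ℝ) (s : MSt E) :
    stp U (fun s => F s + G s) s = stp U F s + stp U G s := by
  unfold stp; rw [← Finset.sum_add_distrib]; refine Finset.sum_congr rfl fun i _ => ?_; ring

lemma stp_sub (U : Sys E ι) (F G : MSt E → ℝ) (s : MSt E) :
    stp U (fun s => F s - G s) s = stp U F s - stp U G s := by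
  unfold stp; rw [← Finset.sum_sub_distrib]; refine Finset.sum_congr rfl fun i _ => ?_; ring

lemma stp_smul (U : Sys E ι) (c : ℝ) (F : MSt E → ℝ) (s : MSt E) :
    stp U (fun s => c * F s) s = c * stp U F s := by
  unfold stp; rw [Finset.mul_sum]; refine Finset.sum_congr rfl fun i _ => ?_; ring

lemma stp_sum {κ : Type*} (U : Sys E ι) (t : Finset κ) (F : κ → MSt E → ℝ) (s : MSt E) :
    stp U (fun s => ∑ j ∈ t, F j s) s = ∑ j ∈ t, stp U (F j) s := by
  classical
  induction t using Finset.induction_on with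
  | empty => simp [stp]
  | insert j t hj ih =>
    simp only [Finset.sum_insert hj]
    rw [stp_add U (F j) (fun s => ∑ j ∈ t, F j s), ih]

lemma stp_const (hU : U.Ok) (c : ℝ) (s : MSt E) : stp U (fun _ => c) s = c := by
  unfold stp
  have : ∀ i, U.wt s.1 (s.2 s.1) i * (U.f s.1 (s.2 s.1) / 2 * (c + c) +
      (1 - U.f s.1 (s.2 s.1)) / 2 * (c + c)) = U.wt s.1 (s.2 s.1) i * c := fun i => by ring
  simp only [this]
  rw [← Finset.sum_mul, hU.wt1, one_mul]

lemma stp_congr {F G : MSt E → ℝ} {s : MSt E} (h : ∀ i e, F (nxt U s i e) = G (nxt U s i e)) :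
    stp U F s = stp U G s := by
  unfold stp
  refine Finset.sum_congr rfl fun i _ => ?_
  rw [h, h, h, h]

lemma stp_of_eq (hU : U.Ok) {F : MSt E → ℝ} {s : MSt E} {c : ℝ}
    (h : ∀ i e, F (nxt U s i e) = c) : stp U F s = c := by
  rw [stp_congr (G := fun _ => c) h, stp_const hU]

lemma stp_mono (hU : U.Ok) {F G : MSt E → ℝ} {s : MSt E}
    (h : ∀ i e, F (nxt U s i e) ≤ G (nxt U s i e)) : stp U F s ≤ stp U G s := by
  unfold stp
  refine Finset.sum_le_sum fun i _ => mul_le_mul_of_nonneg_left ?_ (hU.wt0 _ _ _)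
  have h1 := hU.f0 s.1 (s.2 s.1)
  have h2 := hU.f1 s.1 (s.2 s.1)
  have h3 := mul_le_mul_of_nonneg_left (add_le_add (h i (0, true)) (h i (0, false)))
    (show 0 ≤ U.f s.1 (s.2 s.1) / 2 by linarith)
  have h4 := mul_le_mul_of_nonneg_left (add_le_add (h i (1, true)) (h i (1, false)))
    (show 0 ≤ (1 - U.f s.1 (s.2 s.1)) / 2 by linarith)
  linarith

lemma stp_abs (hU : U.Ok) (F : MSt E → ℝ) (s : MSt E) :
    |stp U F s| ≤ stp U (fun t => |F t|) s := by
  rw [abs_le]
  constructor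
  · have h1 := stp_mono hU (F := fun t => -1 * |F t|) (G := F) (s := s)
      (fun i e => by linarith [neg_abs_le (F (nxt U s i e))])
    rw [stp_smul] at h1
    linarith
  · exact stp_mono hU fun i e => le_abs_self _

lemma stp_le_const (hU : U.Ok) {F : MSt E → ℝ} {s : MSt E} {c : ℝ}
    (h : ∀ i e, F (nxt U s i e) ≤ c) : stp U F s ≤ c := by
  have := stp_mono hU (G := fun _ => c) h
  rwa [stp_const hU] at this

lemma stp_abs_le (hU : U.Ok) {F : MSt E → ℝ} {s : MSt E} {c : ℝ}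
    (h : ∀ i e, |F (nxt U s i e)| ≤ c) : |stp U F s| ≤ c :=
  (stp_abs hU F s).trans (stp_le_const hU h)

lemma KK_in {F : MSt E → ℝ} {s : MSt E} (h : s.1 ∈ Λ) : KK U Λ F s = stp U F s := by
  unfold KK; rw [if_pos h]

lemma KK_out {F : MSt E → ℝ} {s : MSt E} (h : s.1 ∉ Λ) : KK U Λ F s = F s := by
  unfold KK; rw [if_neg h]

lemma inn_in {g : MSt E → ℝ} {s : MSt E} (h : s.1 ∈ Λ) : inn Λ g s = g s := by
  unfold inn; rw [if_pos h]

lemma inn_out {g : MSt E → ℝ} {s : MSt E} (h : s.1 ∉ Λ) : inn Λ g s = 0 := by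
  unfold inn; rw [if_neg h]

lemma inn_add (F G : MSt E → ℝ) :
    inn Λ (fun s => F s + G s) = fun s => inn Λ F s + inn Λ G s := by
  funext s; unfold inn; split_ifs <;> simp

lemma inn_sub (F G : MSt E → ℝ) :
    inn Λ (fun s => F s - G s) = fun s => inn Λ F s - inn Λ G s := by
  funext s; unfold inn; split_ifs <;> simp

lemma inn_smul (c : ℝ) (F : MSt E → ℝ) : inn Λ (fun s => c * F s) = fun s => c * inn Λ F s := by
  funext s; unfold inn; split_ifs <;> simp

lemma inn_abs (F : MSt E → ℝ) : (fun s => |inn Λ F s|) = inn Λ (fun s => |F s|) := by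
  funext s; unfold inn; split_ifs <;> simp

lemma KK_add (F G : MSt E → ℝ) :
    KK U Λ (fun s => F s + G s) = fun s => KK U Λ F s + KK U Λ G s := by
  funext s; unfold KK; split_ifs
  · exact stp_add U F G s
  · rfl

lemma KK_sub (F G : MSt E → ℝ) :
    KK U Λ (fun s => F s - G s) = fun s => KK U Λ F s - KK U Λ G s := by
  funext s; unfold KK; split_ifs
  · exact stp_sub U F G s
  · rfl

lemma KK_smul (c : ℝ) (F : MSt E → ℝ) : KK U Λ (fun s => c * F s) = fun s => c * KK U Λ F s := by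
  funext s; unfold KK; split_ifs
  · exact stp_smul U c F s
  · rfl

lemma KK_const (hU : U.Ok) (c : ℝ) : KK U Λ (fun _ => c) = fun _ => c := by
  funext s; unfold KK; split_ifs
  · exact stp_const hU c s
  · rfl

lemma Ex_zero (F : MSt E → ℝ) : Ex U Λ 0 F = F := rfl

lemma Ex_succ (N : ℕ) (F : MSt E → ℝ) : Ex U Λ (N + 1) F = KK U Λ (Ex U Λ N F) := by
  unfold Ex; rw [Function.iterate_succ_apply']

lemma Ex_succ' (N : ℕ) (F : MSt E → ℝ) : Ex U Λ (N + 1) F = Ex U Λ N (KK U Λ F) := by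
  unfold Ex; rw [Function.iterate_succ_apply]

lemma Ex_Ex (M N : ℕ) (F : MSt E → ℝ) : Ex U Λ M (Ex U Λ N F) = Ex U Λ (M + N) F := by
  unfold Ex; rw [Function.iterate_add_apply]

lemma Ex_add (N : ℕ) (F G : MSt E → ℝ) :
    Ex U Λ N (fun s => F s + G s) = fun s => Ex U Λ N F s + Ex U Λ N G s := by
  induction N with
  | zero => rfl
  | succ N ih => rw [Ex_succ, ih, KK_add, ← Ex_succ, ← Ex_succ]

lemma Ex_sub (N : ℕ) (F G : MSt E → ℝ) :
    Ex U Λ N (fun s => F s - G s) = fun s => Ex U Λ N F s - Ex U Λ N G s := by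
  induction N with
  | zero => rfl
  | succ N ih => rw [Ex_succ, ih, KK_sub, ← Ex_succ, ← Ex_succ]

lemma Ex_smul (N : ℕ) (c : ℝ) (F : MSt E → ℝ) :
    Ex U Λ N (fun s => c * F s) = fun s => c * Ex U Λ N F s := by
  induction N with
  | zero => rfl
  | succ N ih => rw [Ex_succ, ih, KK_smul, ← Ex_succ]

lemma Ex_const (hU : U.Ok) (N : ℕ) (c : ℝ) : Ex U Λ N (fun _ => c) = fun _ => c := by
  induction N with
  | zero => rfl
  | succ N ih => rw [Ex_succ, ih, KK_const Λ hU]

lemma Ex_sum {κ : Type*} (N : ℕ) (t : Finset κ) (F : κ → MSt E → ℝ) (s : MSt E) :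
    Ex U Λ N (fun s => ∑ i ∈ t, F i s) s = ∑ i ∈ t, Ex U Λ N (F i) s := by
  classical
  induction t using Finset.induction_on with
  | empty =>
    simp only [Finset.sum_empty]
    have := congrFun (Ex_smul (U := U) Λ N 0 (fun _ => 0)) s
    simpa using this
  | insert i t hi ih =>
    simp only [Finset.sum_insert hi]
    rw [Ex_add Λ N (F i) (fun s => ∑ i ∈ t, F i s)]
    simp only [ih]

lemma Ex_out (N : ℕ) (F : MSt E → ℝ) {s : MSt E} (h : s.1 ∉ Λ) : Ex U Λ N F s = F s := by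
  induction N with
  | zero => rfl
  | succ N ih => rw [Ex_succ, KK_out Λ h, ih]

lemma Rw_zero (g : MSt E → ℝ) (s : MSt E) : Rw U Λ 0 g s = 0 := by simp [Rw]

lemma Rw_add (N : ℕ) (F G : MSt E → ℝ) (s : MSt E) :
    Rw U Λ N (fun s => F s + G s) s = Rw U Λ N F s + Rw U Λ N G s := by
  unfold Rw
  rw [← Finset.sum_add_distrib]
  refine Finset.sum_congr rfl fun m _ => ?_
  rw [inn_add, Ex_add]

lemma Rw_sub (N : ℕ) (F G : MSt E → ℝ) (s : MSt E) :
    Rw U Λ N (fun s => F s - G s) s = Rw U Λ N F s - Rw U Λ N G s := by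
  unfold Rw
  rw [← Finset.sum_sub_distrib]
  refine Finset.sum_congr rfl fun m _ => ?_
  rw [inn_sub, Ex_sub]

lemma Rw_smul (N : ℕ) (c : ℝ) (g : MSt E → ℝ) (s : MSt E) :
    Rw U Λ N (fun s => c * g s) s = c * Rw U Λ N g s := by
  unfold Rw
  rw [Finset.mul_sum]
  refine Finset.sum_congr rfl fun m _ => ?_
  rw [inn_smul, Ex_smul]

lemma Rw_sum {κ : Type*} (N : ℕ) (t : Finset κ) (F : κ → MSt E → ℝ) (s : MSt E) :
    Rw U Λ N (fun s => ∑ i ∈ t, F i s) s = ∑ i ∈ t, Rw U Λ N (F i) s := by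
  classical
  induction t using Finset.induction_on with
  | empty =>
    simp only [Finset.sum_empty]
    have := Rw_smul (U := U) Λ N 0 (fun _ => 0) s
    simpa using this
  | insert i t hi ih =>
    simp only [Finset.sum_insert hi]
    rw [Rw_add Λ N (F i) (fun s => ∑ i ∈ t, F i s), ih]

lemma Rw_congr (N : ℕ) {F G : MSt E → ℝ} (h : ∀ s, s.1 ∈ Λ → F s = G s) (s : MSt E) :
    Rw U Λ N F s = Rw U Λ N G s := by
  have : inn Λ F = inn Λ G := by
    funext s
    by_cases hs : s.1 ∈ Λ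
    · rw [inn_in Λ hs, inn_in Λ hs, h s hs]
    · rw [inn_out Λ hs, inn_out Λ hs]
  unfold Rw
  rw [this]

lemma Rw_out (N : ℕ) (g : MSt E → ℝ) {s : MSt E} (h : s.1 ∉ Λ) : Rw U Λ N g s = 0 := by
  unfold Rw
  refine Finset.sum_eq_zero fun m _ => ?_
  rw [Ex_out Λ m _ h, inn_out Λ h]

/-- first step decomposition -/
lemma Rw_succ (N : ℕ) (g : MSt E → ℝ) (s : MSt E) :
    Rw U Λ (N + 1) g s = inn Λ g s + KK U Λ (Rw U Λ N g) s := by
  have h1 : KK U Λ (Rw U Λ N g) s = ∑ m ∈ range N, Ex U Λ (m + 1) (inn Λ g) s := by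
    have : Rw U Λ N g = fun s => ∑ m ∈ range N, Ex U Λ m (inn Λ g) s := rfl
    rw [this]
    have h2 := Ex_sum (U := U) Λ 1 (range N) (fun m => Ex U Λ m (inn Λ g)) s
    have h3 : ∀ F : MSt E → ℝ, Ex U Λ 1 F = KK U Λ F := fun F => rfl
    rw [h3] at h2
    rw [h2]
    refine Finset.sum_congr rfl fun m _ => ?_
    rw [h3, ← Ex_succ]
  rw [h1]
  unfold Rw
  rw [Finset.sum_range_succ', add_comm]
  rfl

/-- last step decomposition -/
lemma Rw_last (N : ℕ) (g : MSt E → ℝ) (s : MSt E) :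
    Rw U Λ (N + 1) g s = Rw U Λ N g s + Ex U Λ N (inn Λ g) s := by
  unfold Rw
  rw [Finset.sum_range_succ]

/-- **Telescoping**: if inside `Λ` the step changes `F` by `g` then `E F_N = F + E ∑ g`. -/
lemma tele (N : ℕ) {F g : MSt E → ℝ} (h : ∀ s, s.1 ∈ Λ → stp U F s = F s + g s) (s : MSt E) :
    Ex U Λ N F s = F s + Rw U Λ N g s := by
  induction N generalizing s with
  | zero => simp [Ex_zero, Rw_zero]
  | succ N ih =>
    have h1 : KK U Λ F = fun s => F s + inn Λ g s := by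
      funext s
      by_cases hs : s.1 ∈ Λ
      · rw [KK_in Λ hs, inn_in Λ hs, h s hs]
      · rw [KK_out Λ hs, inn_out Λ hs, add_zero]
    rw [Ex_succ', h1, Ex_add, Rw_last]
    simp only [ih]
    ring

/-- Telescoping with the drift. -/
lemma tele_Dr (N : ℕ) (F : MSt E → ℝ) (s : MSt E) :
    Ex U Λ N F s = F s + Rw U Λ N (Dr U F) s :=
  tele Λ N (fun s _ => by unfold Dr; ring) s

lemma KK_mono (hU : U.Ok) {F G : MSt E → ℝ} (h : ∀ s, F s ≤ G s) (s : MSt E) :
    KK U Λ F s ≤ KK U Λ G s := by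
  by_cases hs : s.1 ∈ Λ
  · rw [KK_in Λ hs, KK_in Λ hs]
    exact stp_mono hU fun i e => h _
  · rw [KK_out Λ hs, KK_out Λ hs]
    exact h s

lemma Ex_mono (hU : U.Ok) (N : ℕ) {F G : MSt E → ℝ} (h : ∀ s, F s ≤ G s) (s : MSt E) :
    Ex U Λ N F s ≤ Ex U Λ N G s := by
  induction N generalizing s with
  | zero => exact h s
  | succ N ih =>
    rw [Ex_succ, Ex_succ]
    exact KK_mono Λ hU ih s

/-- monotonicity along an invariant property of the states -/
lemma Ex_mono_inv (hU : U.Ok) (N : ℕ) {F G : MSt E → ℝ} {I : MSt E → Prop}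
    (hI : ∀ s, I s → s.1 ∈ Λ → ∀ i e, I (nxt U s i e)) (h : ∀ s, I s → F s ≤ G s) (s : MSt E)
    (hs : I s) : Ex U Λ N F s ≤ Ex U Λ N G s := by
  induction N generalizing s with
  | zero => exact h s hs
  | succ N ih =>
    rw [Ex_succ, Ex_succ]
    by_cases hm : s.1 ∈ Λ
    · rw [KK_in Λ hm, KK_in Λ hm]
      exact stp_mono hU fun i e => ih _ (hI s hs hm i e)
    · rw [KK_out Λ hm, KK_out Λ hm]
      exact ih s hs

lemma Ex_nonneg (hU : U.Ok) (N : ℕ) {F : MSt E → ℝ} (h : ∀ s, 0 ≤ F s) (s : MSt E) :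
    0 ≤ Ex U Λ N F s := by
  have := Ex_mono Λ hU N (F := fun _ => 0) (G := F) h s
  rwa [Ex_const Λ hU] at this

lemma Ex_le_const (hU : U.Ok) (N : ℕ) {F : MSt E → ℝ} {c : ℝ} (h : ∀ s, F s ≤ c) (s : MSt E) :
    Ex U Λ N F s ≤ c := by
  have := Ex_mono Λ hU N (F := F) (G := fun _ => c) h s
  rwa [Ex_const Λ hU] at this

lemma Ex_abs (hU : U.Ok) (N : ℕ) (F : MSt E → ℝ) (s : MSt E) :
    |Ex U Λ N F s| ≤ Ex U Λ N (fun s => |F s|) s := by
  rw [abs_le]
  constructor
  · have h1 := Ex_mono Λ hU N (F := fun s => -1 * |F s|) (G := F)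
      (fun s => by linarith [neg_abs_le (F s)]) s
    rw [Ex_smul] at h1
    linarith
  · exact Ex_mono Λ hU N (fun s => le_abs_self _) s

lemma Ex_abs_le (hU : U.Ok) (N : ℕ) {F : MSt E → ℝ} {c : ℝ} (h : ∀ s, |F s| ≤ c) (s : MSt E) :
    |Ex U Λ N F s| ≤ c :=
  (Ex_abs Λ hU N F s).trans (Ex_le_const Λ hU N h s)

lemma Rw_mono (hU : U.Ok) (N : ℕ) {F G : MSt E → ℝ} (h : ∀ s, s.1 ∈ Λ → F s ≤ G s) (s : MSt E) :
    Rw U Λ N F s ≤ Rw U Λ N G s := by
  unfold Rw
  refine Finset.sum_le_sum fun m _ => ?_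
  refine Ex_mono Λ hU m (fun s => ?_) s
  by_cases hs : s.1 ∈ Λ
  · rw [inn_in Λ hs, inn_in Λ hs]; exact h s hs
  · rw [inn_out Λ hs, inn_out Λ hs]

lemma Rw_nonneg (hU : U.Ok) (N : ℕ) {g : MSt E → ℝ} (h : ∀ s, s.1 ∈ Λ → 0 ≤ g s) (s : MSt E) :
    0 ≤ Rw U Λ N g s := by
  have h1 := Rw_mono Λ hU N (F := fun _ => 0) (G := g) h s
  have h2 := Rw_smul (U := U) Λ N 0 (fun _ => 0) s
  simp only [mul_zero, zero_mul] at h2
  rwa [h2] at h1

lemma Rw_abs (hU : U.Ok) (N : ℕ) (g : MSt E → ℝ) (s : MSt E) :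
    |Rw U Λ N g s| ≤ Rw U Λ N (fun s => |g s|) s := by
  unfold Rw
  refine (Finset.abs_sum_le_sum_abs _ _).trans (Finset.sum_le_sum fun m _ => ?_)
  rw [← inn_abs]
  exact Ex_abs Λ hU m _ s

lemma Rw_abs_le (hU : U.Ok) (N : ℕ) {g G : MSt E → ℝ} (h : ∀ s, s.1 ∈ Λ → |g s| ≤ G s)
    (s : MSt E) : |Rw U Λ N g s| ≤ Rw U Λ N G s :=
  (Rw_abs Λ hU N g s).trans (Rw_mono Λ hU N h s)

/-- Telescoping, inequality version. -/
lemma tele_le (hU : U.Ok) (N : ℕ) {F g : MSt E → ℝ} (h : ∀ s, s.1 ∈ Λ → stp U F s ≤ F s + g s)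
    (s : MSt E) : Ex U Λ N F s ≤ F s + Rw U Λ N g s := by
  rw [tele_Dr]
  have := Rw_mono Λ hU N (F := Dr U F) (G := g) (fun s hs => by unfold Dr; linarith [h s hs]) s
  linarith

lemma Rw_mono_horizon (hU : U.Ok) {M N : ℕ} (hMN : M ≤ N) {g : MSt E → ℝ}
    (h : ∀ s, s.1 ∈ Λ → 0 ≤ g s) (s : MSt E) : Rw U Λ M g s ≤ Rw U Λ N g s := by
  unfold Rw
  refine Finset.sum_le_sum_of_subset_of_nonneg (Finset.range_mono hMN) fun m _ _ => ?_
  refine Ex_nonneg Λ hU m (fun s => ?_) s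
  by_cases hs : s.1 ∈ Λ
  · rw [inn_in Λ hs]; exact h s hs
  · rw [inn_out Λ hs]

/-! ### Product rules -/

lemma Dr_add (F G : MSt E → ℝ) (s : MSt E) :
    Dr U (fun t => F t + G t) s = Dr U F s + Dr U G s := by
  unfold Dr; rw [stp_add]; ring

lemma Dr_sub (F G : MSt E → ℝ) (s : MSt E) :
    Dr U (fun t => F t - G t) s = Dr U F s - Dr U G s := by
  unfold Dr; rw [stp_sub]; ring

lemma Dr_smul (c : ℝ) (F : MSt E → ℝ) (s : MSt E) :
    Dr U (fun t => c * F t) s = c * Dr U F s := by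
  unfold Dr; rw [stp_smul]; ring

lemma Dr_mul (hU : U.Ok) (F G : MSt E → ℝ) (s : MSt E) :
    Dr U (fun t => F t * G t) s = F s * Dr U G s + G s * Dr U F s + Gam U F G s := by
  have h : Gam U F G s = stp U (fun t => F t * G t) s - F s * stp U G s - G s * stp U F s +
      F s * G s := by
    unfold Gam
    have h1 : (fun t => (F t - F s) * (G t - G s)) =
        fun t => (F t * G t - F s * G t) - (G s * F t - F s * G s) := by
      funext t; ring
    rw [h1, stp_sub U (fun t => F t * G t - F s * G t) (fun t => G s * F t - F s * G s),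
      stp_sub U (fun t => F t * G t) (fun t => F s * G t),
      stp_sub U (fun t => G s * F t) (fun _ => F s * G s), stp_smul, stp_smul, stp_const hU]
    ring
  unfold Dr
  rw [h]
  ring

lemma Gam_abs_le (hU : U.Ok) {F G : MSt E → ℝ} {s : MSt E} {c c' : ℝ} (hc : 0 ≤ c)
    (h : ∀ i e, |F (nxt U s i e) - F s| ≤ c) (h' : ∀ i e, |G (nxt U s i e) - G s| ≤ c') :
    |Gam U F G s| ≤ c * c' := by
  unfold Gam
  refine stp_abs_le hU fun i e => ?_
  rw [abs_mul]
  exact mul_le_mul (h i e) (h' i e) (abs_nonneg _) hc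

/-- Integration by parts. -/
lemma Rw_parts (hU : U.Ok) (N : ℕ) (F G : MSt E → ℝ) (s : MSt E) :
    Rw U Λ N (fun t => F t * Dr U G t) s = Ex U Λ N (fun t => F t * G t) s - F s * G s -
      Rw U Λ N (fun t => G t * Dr U F t) s - Rw U Λ N (fun t => Gam U F G t) s := by
  have h1 := tele_Dr (U := U) Λ N (fun t => F t * G t) s
  have h2 : Dr U (fun t => F t * G t) =
      fun t => (F t * Dr U G t + G t * Dr U F t) + Gam U F G t := by
    funext t; rw [Dr_mul hU]
  rw [h2, Rw_add Λ N (fun t => F t * Dr U G t + G t * Dr U F t) (fun t => Gam U F G t),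
    Rw_add Λ N (fun t => F t * Dr U G t) (fun t => G t * Dr U F t)] at h1
  linarith

/-! ### Steps of special functions -/

/-- step of a function of the position only -/
lemma stp_pos (hU : U.Ok) (a : ℝ) (F : Site 2 → ℝ) (s : MSt E) :
    stp U (fun s => F s.1) s = F s.1 + La a F s.1 + dd U a s * Df F s.1 := by
  unfold stp
  have : ∀ i, U.wt s.1 (s.2 s.1) i *
    (U.f s.1 (s.2 s.1) / 2 * (F (nxt U s i (0, true)).1 + F (nxt U s i (0, false)).1) +
      (1 - U.f s.1 (s.2 s.1)) / 2 * (F (nxt U s i (1, true)).1 + F (nxt U s i (1, false)).1)) =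
      U.wt s.1 (s.2 s.1) i * (F s.1 + La a F s.1 + dd U a s * Df F s.1) := by
    intro i
    unfold La dd Df secondDiff nxt
    ring
  rw [Finset.sum_congr rfl fun i _ => this i, ← Finset.sum_mul, hU.wt1, one_mul]

/-- step of a product of a function of the state of `z` and of a function of the position -/
lemma stp_site (hU : U.Ok) (a : ℝ) (z : Site 2) (G : E → ℝ) (Ψ : Site 2 → ℝ) (s : MSt E) :
    stp U (fun s => G (s.2 z) * Ψ s.1) s =
      (G (s.2 z) + if z = s.1 then av U s.1 G (s.2 s.1) - G (s.2 s.1) else 0) *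
        (Ψ s.1 + La a Ψ s.1 + dd U a s * Df Ψ s.1) := by
  unfold stp
  by_cases hz : z = s.1
  · subst hz
    rw [if_pos rfl]
    have : ∀ i, U.wt s.1 (s.2 s.1) i *
      (U.f s.1 (s.2 s.1) / 2 * (G ((nxt U s i (0, true)).2 s.1) * Ψ (nxt U s i (0, true)).1 +
          G ((nxt U s i (0, false)).2 s.1) * Ψ (nxt U s i (0, false)).1) +
        (1 - U.f s.1 (s.2 s.1)) / 2 * (G ((nxt U s i (1, true)).2 s.1) * Ψ (nxt U s i (1, true)).1 +
          G ((nxt U s i (1, false)).2 s.1) * Ψ (nxt U s i (1, false)).1)) =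
        (U.wt s.1 (s.2 s.1) i * G (U.nx s.1 (s.2 s.1) i)) *
          (Ψ s.1 + La a Ψ s.1 + dd U a s * Df Ψ s.1) := by
      intro i
      simp only [nxt, Function.update_self]
      unfold La dd Df secondDiff
      ring
    rw [Finset.sum_congr rfl fun i _ => this i, ← Finset.sum_mul]
    congr 1
    unfold av
    ring
  · rw [if_neg hz]
    have : ∀ i, U.wt s.1 (s.2 s.1) i *
      (U.f s.1 (s.2 s.1) / 2 * (G ((nxt U s i (0, true)).2 z) * Ψ (nxt U s i (0, true)).1 +
          G ((nxt U s i (0, false)).2 z) * Ψ (nxt U s i (0, false)).1) +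
        (1 - U.f s.1 (s.2 s.1)) / 2 * (G ((nxt U s i (1, true)).2 z) * Ψ (nxt U s i (1, true)).1 +
          G ((nxt U s i (1, false)).2 z) * Ψ (nxt U s i (1, false)).1)) =
        U.wt s.1 (s.2 s.1) i * (G (s.2 z) * (Ψ s.1 + La a Ψ s.1 + dd U a s * Df Ψ s.1)) := by
      intro i
      simp only [nxt, Function.update_of_ne hz]
      unfold La dd Df secondDiff
      ring
    rw [Finset.sum_congr rfl fun i _ => this i, ← Finset.sum_mul, hU.wt1, one_mul, add_zero]

lemma stp_state (hU : U.Ok) (z : Site 2) (G : E → ℝ) (s : MSt E) :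
    stp U (fun s => G (s.2 z)) s =
      G (s.2 z) + if z = s.1 then av U s.1 G (s.2 s.1) - G (s.2 s.1) else 0 := by
  have h := stp_site hU 0 z G (fun _ => 1) s
  simp only [mul_one] at h
  rw [h]
  have h1 : La 0 (fun _ : Site 2 => (1 : ℝ)) s.1 = 0 := by unfold La secondDiff; ring
  have h2 : Df (fun _ : Site 2 => (1 : ℝ)) s.1 = 0 := by unfold Df secondDiff; ring
  rw [h1, h2]
  ring

lemma nxt_fst (s : MSt E) (i : ι) (e : Dir 2) : (nxt U s i e).1 = s.1 + vec e := rfl

lemma nxt_self (s : MSt E) (i : ι) (e : Dir 2) :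
    (nxt U s i e).2 s.1 = U.nx s.1 (s.2 s.1) i := by simp [nxt]

lemma nxt_of_ne (s : MSt E) (i : ι) (e : Dir 2) {z : Site 2} (h : z ≠ s.1) :
    (nxt U s i e).2 z = s.2 z := by simp [nxt, Function.update_of_ne h]

end lin

end Pool.Agent.Helper99.MKV
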