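import Pool.Agent.Helper99.MKV.Basic

/-! # MKV: definitions (scales, charges, corrected charges) -/

open Finset

namespace Pool.Agent.Helper99.MKV

open Pool.Agent.Helper99.ERW Pool.Agent.Helper99.EXC

/-- `Scl` with evenness, `ℓ²` bound, Lipschitz bound of the truncated kernels and gradient bounds. -/
structure Scx (a : ℝ) (φ : Site 2 → ℝ) (Φ : ℕ → Site 2 → ℝ) (κ C : ℝ) (b k1 : ℕ) : Prop
    extends Scl a φ Φ κ C b k1 where
  evk : ∀ k x, Φ k (-x) = Φ k x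
  formk : ∀ k, k1 ≤ k → ∀ (B : Finset (Site 2)) (f g : Site 2 → ℝ),
    |∑ z ∈ B, ∑ y ∈ B, f z * Df (Φ k) (y - z) * g y| ≤
      C * Real.sqrt (∑ z ∈ B, f z ^ 2) * Real.sqrt (∑ y ∈ B, g y ^ 2)
  lipk : ∀ k, k1 ≤ k → ∀ x y, |Df (Φ k) x - Df (Φ k) y| ≤ C / 8 ^ k * nm (x - y)
  gradP : ∀ k, k1 ≤ k → ∀ x (e : Dir 2), |Φ k (x + vec e) - Φ k x| ≤ C / (1 + nm x)
  gradN : ∀ k, k1 ≤ k → ∀ x (e : Dir 2), ∑ z ∈ Bx b k,
    |(φ (x + vec e - z) - Φ k (x + vec e)) - (φ (x - z) - Φ k x)| ≤ C * 2 ^ k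
  gradF : ∀ k, k1 ≤ k → ∀ z ∈ Bx b k, ∀ x, x ∉ Bx b (k + 1) → ∀ e : Dir 2,
    |(φ (x + vec e - z) - Φ k (x + vec e)) - (φ (x - z) - Φ k x)| ≤ C * 2 ^ k / (1 + nm x) ^ 2

/-- Weights of scale `k`. -/
def Wt (b k : ℕ) (A : ℝ) (v : Site 2 → ℝ) : Prop :=
  0 ≤ A ∧ (∀ x, x ∉ Bx b k → v x = 0) ∧ (∀ x, |v x| ≤ A / 4 ^ k) ∧
    ∀ x y, |v x - v y| ≤ A / 8 ^ k * nm (x - y)

/-- Rough weights of scale `k`. -/
def Rt (b k : ℕ) (A : ℝ) (v : Site 2 → ℝ) : Prop :=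
  0 ≤ A ∧ (∀ x, x ∉ Bx b k → v x = 0) ∧ ∀ x, |v x| ≤ A / 4 ^ k

open Classical in
/-- Size of a drift of scale `k`. -/
noncomputable def Nk (b k : ℕ) (x : Site 2) : ℝ :=
  if x ∈ Bx b (k + 1) then 1 / 4 ^ k else 2 ^ k / (1 + nm x) ^ 3

open Classical in
/-- Size of an increment of scale `k`. -/
noncomputable def Gk (b k : ℕ) (x : Site 2) : ℝ :=
  if x ∈ Bx b (k + 1) then 1 / 2 ^ k else 2 ^ k / (1 + nm x) ^ 2

section

variable {E ι : Type*} [Fintype ι]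

/-- Mean of the product of the increments of `g` and `g'` at an update of the site `z`. -/
noncomputable def cv (U : Sys E ι) (g g' : Site 2 → E → ℝ) (z : Site 2) (e : E) : ℝ :=
  av U z (fun e' => (g z e' - g z e) * (g' z e' - g' z e)) e

/-- The cookies are `a` plus a coboundary of the bounded function `S` (in mean). -/
structure Dat (U : Sys E ι) (a B : ℝ) (S : Site 2 → E → ℝ) : Prop where
  a0 : 0 < a
  a1 : a < 1
  ok : U.Ok
  b1 : 1 ≤ B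
  bd : ∀ z e, |S z e| ≤ B
  ps : ∀ z e, av U z (S z) e - S z e = U.f z e - a

/-- The source term. -/
noncomputable def Th (U : Sys E ι) (a h0 : ℝ) (S : Site 2 → E → ℝ) (z : Site 2) (e : E) : ℝ :=
  av U z (S z) e + h0 * (U.f z e - a) ^ 2 - h0 / 2 * cv U S S z e

/-- Charges. -/
noncomputable def VV (g : Site 2 → E → ℝ) (D : Finset (Site 2)) (v : Site 2 → ℝ) (s : MSt E) : ℝ :=
  ∑ z ∈ D, v z * g z (s.2 z)

/-- Charges times potentials centred at the moving particle. -/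
noncomputable def ZZ (φ Ψ : Site 2 → ℝ) (g : Site 2 → E → ℝ) (D : Finset (Site 2))
    (v : Site 2 → ℝ) (s : MSt E) : ℝ := ∑ z ∈ D, v z * g z (s.2 z) * (φ (s.1 - z) - Ψ s.1)

/-- Bilinear forms in the states. -/
noncomputable def BL (g g' : Site 2 → E → ℝ) (D D' : Finset (Site 2)) (M : Site 2 → Site 2 → ℝ)
    (s : MSt E) : ℝ := ∑ y ∈ D, ∑ z ∈ D', M y z * g y (s.2 y) * g' z (s.2 z)

/-- The quadratic form of a weight and a kernel. -/
noncomputable def QQ (H : Site 2 → ℝ) (g : Site 2 → E → ℝ) (D : Finset (Site 2))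
    (v : Site 2 → ℝ) (s : MSt E) : ℝ :=
  1 / 2 * BL g g D D (fun y z => (v y + v z) / 2 * H (y - z)) s

/-- The part of the kernel `Df φ` below the scale `j`. -/
noncomputable def Hj (φ Ψ : Site 2 → ℝ) (u : Site 2) : ℝ := Df φ u - Df Ψ u

/-- The corrected charge. -/
noncomputable def Yv (κ : ℝ) (φ : Site 2 → ℝ) (Φ : ℕ → Site 2 → ℝ) (S : Site 2 → E → ℝ)
    (b j k : ℕ) (v : Site 2 → ℝ) (s : MSt E) : ℝ :=
  κ * k * VV S (Bx b k) v s + ZZ φ (Φ k) S (Bx b k) v s -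
    QQ (Hj φ (Φ j)) S (Bx b (k + 1)) v s -
    VV S (Bx b k) (fun x => v x * (κ * k - Φ k x)) s

/-- The smooth part of the double sum. -/
noncomputable def fv (Φ : ℕ → Site 2 → ℝ) (S : Site 2 → E → ℝ) (b j k : ℕ) (v : Site 2 → ℝ)
    (s : MSt E) : ℝ :=
  ∑ z ∈ Bx b k, v z * S z (s.2 z) * (Df (Φ j) (s.1 - z) - Df (Φ k) s.1)

/-- The drift of the corrected charge, up to small terms. -/
noncomputable def Dv (U : Sys E ι) (a : ℝ) (φ : Site 2 → ℝ) (Φ : ℕ → Site 2 → ℝ)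
    (S : Site 2 → E → ℝ) (b j k : ℕ) (v : Site 2 → ℝ) (s : MSt E) : ℝ :=
  v s.1 * Th U a (Df φ 0) S s.1 (s.2 s.1) - La a (Φ k) s.1 * VV S (Bx b k) v s +
    dd U a s * fv Φ S b j k v s

end

/-- The charge of scale `k`. -/
noncomputable def ck {E : Type*} (Φ : ℕ → Site 2 → ℝ) (S : Site 2 → E → ℝ) (b k : ℕ) :
    MSt E → ℝ := VV S (Bx b k) (hk Φ k)

/-- The indicator of the states inside `Λ`. -/
noncomputable def one {E : Type*} (Λ : Finset (Site 2)) (s : MSt E) : ℝ := if s.1 ∈ Λ then 1 else 0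

/-- The kernel of the potentials of the charges of scale `k`. -/
noncomputable def Ek (φ : Site 2 → ℝ) (Φ : ℕ → Site 2 → ℝ) (k : ℕ) (y z : Site 2) : ℝ :=
  Df φ (y - z) - Df (Φ k) y

/-- The corrector of scale `k` (see packet SQM). -/
noncomputable def YY {E : Type*} (κ : ℝ) (φ : Site 2 → ℝ) (Φ : ℕ → Site 2 → ℝ)
    (S R T : Site 2 → E → ℝ) (b m k s : ℕ) (t : MSt E) : ℝ :=
  Yv κ φ Φ S b (k - m) k (hk Φ k) t - VV R (Bx b k) (hk Φ k) t -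
    ZZ φ (Φ k) T (Bx b k) (hk Φ k) t +
    BL S T (Bx b (s + 1)) (Bx b k) (fun y z => hk Φ k z * Ek φ Φ k y z) t

/-- Approximate solution of the Poisson equation for the source `Th`: `T` is harmonic, the error is
at most `ep`. -/
structure Poi {E ι : Type*} [Fintype ι] (U : Sys E ι) (a h0 B BR : ℝ)
    (S R T : Site 2 → E → ℝ) (ep : Site 2 → ℝ) : Prop where
  br : 0 ≤ BR
  bR : ∀ z e, |R z e| ≤ BR
  bT : ∀ z e, |T z e| ≤ B
  hT : ∀ z e, av U z (T z) e = T z e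
  e0 : ∀ z, 0 ≤ ep z
  e1 : ∀ z, ep z ≤ BR
  eq : ∀ z e, |Th U a h0 S z e - T z e + h0 * cv U S T z e - (av U z (R z) e - R z e)| ≤ ep z

end Pool.Agent.Helper99.MKV
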