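import Pool.Agent.Helper99.MKV.GoalsC
import Pool.Agent.Helper99.EXC.GoalsE
import Pool.Agent.Helper99.ERW.Cylinder

/-! # MKV: definitions for the random environments -/

open Finset MeasureTheory ProbabilityTheory Filter
open scoped ENNReal

namespace Pool.Agent.Helper99.MKV

open Pool.Agent.Helper99.ERW Pool.Agent.Helper99.EXC

/-- `p` is a stochastic matrix. -/
def Stoch {E : Type*} [Fintype E] (p : E → E → ℝ) : Prop :=
  (∀ e i, 0 ≤ p e i) ∧ ∀ e, ∑ i, p e i = 1

/-- Every stationary law of `p` gives `f` the mean `a`. -/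
def MeanIs {E : Type*} [Fintype E] (p : E → E → ℝ) (f : E → ℝ) (a : ℝ) : Prop :=
  ∀ π : E → ℝ, (∀ e, 0 ≤ π e) → ∑ e, π e = 1 → (∀ i, ∑ e, π e * p e i = π i) →
    ∑ e, π e * f e = a

/-- `Q` is the law of a field of stacks `ξ z 0, ξ z 1, ...`: the field `z ↦ ξ z 0` has law `ν`, and
given this field the stacks of the different sites are independent Markov chains with transition
matrix `p`. (Cylinder probabilities.) -/
def IsField {E : Type*} [MeasurableSpace E] (p : E → E → ℝ) (ν : Measure (Site 2 → E))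
    (Q : Measure (Site 2 → ℕ → E)) : Prop :=
  ∀ (F : Finset (Site 2)) (n : Site 2 → ℕ) (x : Site 2 → ℕ → E),
    Q {ξ | ∀ z ∈ F, ∀ i ≤ n z, ξ z i = x z i} =
      ν {ζ | ∀ z ∈ F, ζ z = x z 0} *
        ∏ z ∈ F, ∏ i ∈ Finset.range (n z), ENNReal.ofReal (p (x z i) (x z (i + 1)))

/-- The balanced environment of a field of cookie types: `f e` is the probability of a step in
the first coordinate. -/
noncomputable def envOf {E : Type*} (f : E → ℝ) (ξ : Site 2 → ℕ → E) : Env 2 :=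
  fun z e i => if e.1 = 0 then f (ξ z i) / 2 else (1 - f (ξ z i)) / 2

/-- `ν` is stationary and ergodic under the spatial shifts. -/
def SEs {E : Type*} [MeasurableSpace E] (ν : Measure (Site 2 → E)) : Prop :=
  (∀ x : Site 2, ν.map (fun ζ z => ζ (z + x)) = ν) ∧
    ∀ A : Set (Site 2 → E), MeasurableSet A →
      (∀ x : Site 2, (fun (ζ : Site 2 → E) z => ζ (z + x)) ⁻¹' A = A) → ν A = 0 ∨ ν A = 1

/-- The system of the Markov chains. -/
def chS {E : Type*} (p : E → E → ℝ) (f : E → ℝ) : Sys E E :=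
  ⟨fun _ _ i => i, fun _ e i => p e i, fun _ e => f e⟩

/-- The system of one fixed environment: the state of a site is the number of its earlier visits. -/
def detS (p : Site 2 → ℕ → ℝ) : Sys ℕ Unit := ⟨fun _ j _ => j + 1, fun _ _ _ => 1, p⟩

/-- Uniform Cesàro convergence (almost convergence) of `u` to `l`. -/
def UCes (u : ℕ → ℝ) (l : ℝ) : Prop :=
  ∀ ε : ℝ, 0 < ε → ∃ n0 : ℕ, ∀ n, n0 ≤ n → 1 ≤ n → ∀ m : ℕ,
    |(∑ i ∈ Finset.range n, u (m + i)) / n - l| ≤ ε

/-- The source term of a stack. -/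
noncomputable def tha (a h0 : ℝ) (σ : Stack 2) (i : ℕ) : ℝ :=
  psum a σ (i + 1) + h0 / 2 * (2 * σ (0, true) i - a) ^ 2

/-- Its mean. -/
noncomputable def thL (a h0 : ℝ) (σ : Stack 2) : ℝ :=
  limsup (fun n : ℕ => (∑ i ∈ Finset.range n, tha a h0 σ i) / n) atTop

/-- The error of the block averages of length `n`. -/
noncomputable def epn (a h0 : ℝ) (n : ℕ) (σ : Stack 2) : ℝ :=
  ⨆ m : ℕ, |(∑ i ∈ Finset.range n, tha a h0 σ (m + i)) / n - thL a h0 σ|

/-- Stacks with bounded partial sums and uniform Cesàro limits. -/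
def GSt (a B : ℝ) (σ : Stack 2) : Prop :=
  (∀ i, 0 ≤ 2 * σ (0, true) i ∧ 2 * σ (0, true) i ≤ 1) ∧ (∀ j, |psum a σ j| ≤ B) ∧
    (∃ l, UCes (fun i => psum a σ i) l) ∧ ∃ l, UCes (fun i => (2 * σ (0, true) i - a) ^ 2) l

end Pool.Agent.Helper99.MKV
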