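import Pool.Agent.Helper99.MKV.Final0
import Pool.Agent.Helper5.MKV.LPK
import Pool.Agent.Helper51.MKV.FVB
import Pool.Agent.Helper77.MKV.FIN
import Pool.Agent.Helper67.MKV.MRT
import Pool.Agent.Helper79.MKV.SQM
import Pool.Agent.Helper65.MKV.HIE

/-! # MKV: assembly, part 2 -/

open Finset MeasureTheory ProbabilityTheory Filter
open scoped ENNReal

namespace Pool.Agent.Helper99.MKV

open Pool.Agent.Helper99.ERW Pool.Agent.Helper99.EXC

theorem fvb : FVB_stmt := Pool.Agent.Helper51.MKV.FVB sms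

theorem fin : FIN_stmt :=
  Pool.Agent.Helper77.MKV.FIN sms inc drg vis (lma fvb) Pool.Agent.Helper15.MKV.FNW (fne fvb)

theorem mrt : MRT_stmt := Pool.Agent.Helper67.MKV.MRT sms drg inc vis

theorem sqm : SQM_stmt := Pool.Agent.Helper79.MKV.SQM sms vis fvb fin mrt (yyb fvb) dyy

theorem lpk : LPK_stmt := Pool.Agent.Helper5.MKV.LPK

theorem hie : HIE_stmt := Pool.Agent.Helper65.MKV.HIE

theorem fnm_all : FNM_stmt := fnm lpk sqm hie

theorem fna_all : FNA_stmt := fna lpk sqm hie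

theorem ae_isCookieEnv {E : Type} [Fintype E] [MeasurableSpace E] [MeasurableSingletonClass E]
    (f : E → ℝ) (hf : ∀ e, 0 ≤ f e ∧ f e ≤ 1) (Q : Measure (Site 2 → ℕ → E)) :
    ∀ᵐ ω ∂(Q.map (envOf f)), IsCookieEnv ω :=
  (Pool.Agent.Helper43.MKV.ae_cb hf Q).mono fun _ h => h.1

theorem recurrent_markov {E : Type} [Fintype E] [MeasurableSpace E] [MeasurableSingletonClass E]
    (p : E → E → ℝ) (hp : Stoch p) (f : E → ℝ) (hf : ∀ e, 0 ≤ f e ∧ f e ≤ 1)
    (a : ℝ) (ha0 : 0 < a) (ha1 : a < 1) (hmean : MeanIs p f a)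
    (ν : Measure (Site 2 → E)) [IsProbabilityMeasure ν] (hν : SEs ν)
    (Q : Measure (Site 2 → ℕ → E)) [IsProbabilityMeasure Q] (hQ : IsField p ν Q)
    {Ω : Type*} [MeasurableSpace Ω] (μ : Measure Ω) [IsProbabilityMeasure μ]
    (env : Ω → Env 2) (X : ℕ → Ω → Site 2) (hX : IsERW (Q.map (envOf f)) μ env X) :
    Recurrent μ X := by
  refine recurrent_of_canonical hX ?_
  have hF : Measurable (cmap env X) :=
    hX.measurable_env.prodMk (measurable_pi_lambda _ fun n => hX.measurable_walk n)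
  have : IsProbabilityMeasure (μ.map (cmap env X)) :=
    Measure.isProbabilityMeasure_map hF.aemeasurable
  exact fnm_all E p f a ν Q hp hf ha0 ha1 hmean hν hQ _ _ _ _ _
    (canonical hX (ae_isCookieEnv f hf Q))

theorem recurrent_cesaro {Ω : Type*} [MeasurableSpace Ω] (P : Measure (Env 2))
    [IsProbabilityMeasure P] (μ : Measure Ω) [IsProbabilityMeasure μ] (env : Ω → Env 2)
    (X : ℕ → Ω → Site 2) (hX : IsERW P μ env X)
    (hcookie : ∀ᵐ ω ∂P, IsCookieEnv ω) (hbal : ∀ᵐ ω ∂P, IsBalanced ω) (hSE : SE P)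
    (a B : ℝ) (ha0 : 0 < a) (ha1 : a < 1) (hB : 1 ≤ B) (hG : ∀ᵐ ω ∂P, GSt a B (ω 0)) :
    Recurrent μ X := by
  refine recurrent_of_canonical hX ?_
  have hF : Measurable (cmap env X) :=
    hX.measurable_env.prodMk (measurable_pi_lambda _ fun n => hX.measurable_walk n)
  have : IsProbabilityMeasure (μ.map (cmap env X)) :=
    Measure.isProbabilityMeasure_map hF.aemeasurable
  exact fna_all _ _ P _ _ _ (canonical hX hcookie) hcookie hbal hSE a B ha0 ha1 hB hG

end Pool.Agent.Helper99.MKV
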