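import Pool.Agent.Helper99.MKV.DefsR

/-!
# MKV, part R: random environments (exact statements of the packets)
-/

open Finset MeasureTheory ProbabilityTheory Filter
open scoped ENNReal

namespace Pool.Agent.Helper99.MKV

open Pool.Agent.Helper99.ERW Pool.Agent.Helper99.EXC

/-- PACKET POI (linear algebra of a finite stochastic matrix).  (i) There is `Π : E → E → ℝ`, stochastic, `Π p = p Π = Π`, and `g - Π g ∈ range (p - 1)` for every `g`: the Cesàro means `A_n = (1/n) ∑_{m<n} p^m`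
are stochastic, so along a subsequence `A_n → Π` (compactness of `[0,1]^(E×E)`); `A_n (p - 1) = (p^n - 1)/n → 0`; `g - A_n g ∈ range (p - 1)` (telescoping `1 - p^m`), a subspace of a finite dimensional space, hence closed.
(ii) Each row of `Π` is a stationary law, so `Π (f - a) = 0` by the hypothesis: this gives `S` with `p S - S = f - a`.  (iii) `g0 e = ∑ p e i S i + h0 (f e - a)² - (h0/2) ∑ p e i (S i - S e)²`, `T = Π g0` is harmonic.
For a stationary law `π`: `∑_e π e ∑_i p e i (T i - T e)² = 2 π(T²) - 2 π(T · pT) = 0`, so `T i = T e` whenever `π e p e i > 0`, hence `π(cov) = 0` for `cov e = ∑ p e i (S i - S e)(T i - T e)`; so `Π cov = 0`, and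
`Π (g0 - T + h0 cov) = 0`: this gives `R`. -/
def POI_stmt : Prop := ∀ (E : Type) [Fintype E] (p : E → E → ℝ) (f : E → ℝ) (a h0 : ℝ),
  Stoch p → MeanIs p f a → ∃ S T R : E → ℝ, (∀ e, ∑ i, p e i * S i - S e = f e - a) ∧
    (∀ e, ∑ i, p e i * T i = T e) ∧
    ∀ e, (∑ i, p e i * S i + h0 * (f e - a) ^ 2 - h0 / 2 * ∑ i, p e i * (S i - S e) ^ 2) - T e +
      h0 * (∑ i, p e i * ((S i - S e) * (T i - T e))) = ∑ i, p e i * R i - R e

/-- PACKET MKP (Markov property of the field).  Let `T ξ z j = ξ z (min j (L z))`, so `G = G ∘ T` (`T ξ` agrees with `ξ` up to `L`).  The two finite measures `A ↦ Q (T⁻¹ A ∩ {ξ x0 (L x0 + 1) = i})` and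
`A ↦ ∫_{T⁻¹ A} ofReal (p (ξ x0 (L x0)) i) dQ` agree on the cylinders `A = {∀ z ∈ F, ∀ j ≤ n z, ξ z j = x z j}` with `x0 ∈ F`, `L ≤ n` on `F`: `T⁻¹ A` is empty if some `x z` is not constant from `L z` to `n z`, and otherwise it
is the cylinder with `L` in place of `n`; apply `IsField` twice (to `L` and to `L + 1` at `x0`).  These cylinders (with the empty set) form a generating pi-system (countable discrete coordinates), the total masses agree
(sum over the finitely many `x` on `F = {x0}`): `ext_of_generate_finite`.  Then integrate `G`. -/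
def MKP_stmt : Prop := ∀ (E : Type) [Fintype E] [MeasurableSpace E] [MeasurableSingletonClass E]
  (p : E → E → ℝ) (ν : Measure (Site 2 → E)) (Q : Measure (Site 2 → ℕ → E))
  [IsProbabilityMeasure Q], Stoch p → IsField p ν Q →
  ν = Q.map (fun ξ z => ξ z 0) ∧
  ∀ (L : Site 2 → ℕ) (x0 : Site 2) (i : E) (G : (Site 2 → ℕ → E) → ℝ≥0∞), Measurable G →
  (∀ ξ ξ', (∀ z, ∀ j ≤ L z, ξ z j = ξ' z j) → G ξ = G ξ') →
  ∫⁻ ξ in {ξ | ξ x0 (L x0 + 1) = i}, G ξ ∂Q =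
    ∫⁻ ξ, G ξ * ENNReal.ofReal (p (ξ x0 (L x0)) i) ∂Q

/-- PACKET ANN (may assume MKP).  Averaging over the unread cookies, by induction on `N` (all `x, L, G`).  `N = 0` and `x = 0`: both probabilities are equal.  Otherwise, with `c_e = f/2` or `(1-f)/2` at the state `ξ x (L x)`:
`EXC.hp (N+1) (x, L) = ∑_e c_e EXC.hp N (x + e, L + δ_x)`; the functions `G c_e` depend only on the cookies up to `L`, hence up to `L' = update L x (L x + 1)`, so by induction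
`∫ G c_e EXC.hp N (x+e, L') = ∫ G c_e hp N (x + e, fun z => ξ z (L' z))`; here `ξ z (L' z) = update (fun z => ξ z (L z)) x (ξ x (L x + 1))`; split over the value `i` of `ξ x (L x + 1)` and apply MKP
(for fixed `i` the rest depends only on cookies up to `L`): `= ∑_i ∫ G c_e p (ξ x (L x)) i · hp N (x + e, update .. x i)`.  Sum over `e`: `stp (chS p f) (hp N)`.  Measurability of `ξ ↦ EXC.hp .. N (x, L)` and of `ζ ↦ hp (chS p f) N (x, ζ)`
by induction on `N` (`ζ ↦ update ζ x i` is measurable). -/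
def ANN_stmt : Prop := ∀ (E : Type) [Fintype E] [MeasurableSpace E] [MeasurableSingletonClass E]
  (p : E → E → ℝ) (f : E → ℝ) (ν : Measure (Site 2 → E)) (Q : Measure (Site 2 → ℕ → E))
  [IsProbabilityMeasure Q], Stoch p → (∀ e, 0 ≤ f e ∧ f e ≤ 1) → IsField p ν Q → ∀ N : ℕ,
  (∀ x : Site 2, Measurable (fun ζ : Site 2 → E => hp (chS p f) N (x, ζ))) ∧
  ∀ (x : Site 2) (L : Site 2 → ℕ) (G : (Site 2 → ℕ → E) → ℝ≥0∞), Measurable G →
  (∀ ξ ξ', (∀ z, ∀ j ≤ L z, ξ z j = ξ' z j) → G ξ = G ξ') →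
  ∫⁻ ξ, G ξ * ENNReal.ofReal (Pool.Agent.Helper99.EXC.hp (fun z i => f (ξ z i)) N (x, L)) ∂Q =
    ∫⁻ ξ, G ξ * ENNReal.ofReal (hp (chS p f) N (x, fun z => ξ z (L z))) ∂Q

/-- PACKET LNK (may assume ANN; `EXC.HPL_stmt` is proved: `Helper83/EXC/HPL.lean` applied to `Helper83/EXC/ONE.lean`).  `P = Q.map (envOf f)`; `envOf f ξ` is a balanced cookie environment.  HPL with `E = cyl X x m` (`measurableSet_cyl_hist`): on `E`
`stt X y m w = (x m - y, fun z => visits x m (z + y))` is constant, so `∫_{cyl} EXC.hp (pw (shift y (env w))) N (..) ≤ μ.real (..)`; `IsERW.lintegral_cyl` turns the left side into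
`∫⁻ ofReal (pathProb (envOf f ξ) x m) ofReal (EXC.hp (fun z i => f (ξ (z + y) i)) N (x m - y, L)) dQ`, `L z = visits x m (z + y)`.  Push `Q` forward by the shift `ξ ↦ ξ (· + y)`: it satisfies `IsField` with the shifted `ν`
(`F ↦ F + y`), and `ξ' ↦ pathProb (envOf f (ξ' (· - y))) x m` depends only on the cookies read by the path before time `m`, i.e. on `ξ' z j` with `j < L z`.  ANN. -/
def LNK_stmt : Prop := ∀ (E : Type) [Fintype E] [MeasurableSpace E] [MeasurableSingletonClass E]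
  (p : E → E → ℝ) (f : E → ℝ) (ν : Measure (Site 2 → E)) (Q : Measure (Site 2 → ℕ → E))
  [IsProbabilityMeasure Q], Stoch p → (∀ e, 0 ≤ f e ∧ f e ≤ 1) → IsField p ν Q →
  ∀ (Ω : Type) (_ : MeasurableSpace Ω) (μ : Measure Ω) [IsProbabilityMeasure μ]
  (env : Ω → Env 2) (X : ℕ → Ω → Site 2), IsERW (Q.map (envOf f)) μ env X →
  ∀ (y : Site 2) (m N : ℕ) (x : ℕ → Site 2), x 0 = 0 →
  ∫⁻ ξ, ENNReal.ofReal (pathProb (envOf f ξ) x m) * ENNReal.ofReal (hp (chS p f) N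
      (x m - y, fun z => ξ (z + y) (visits x m (z + y)))) ∂Q ≤
    μ (cyl X x m ∩ {w | ∃ i, m ≤ i ∧ i ≤ m + N ∧ X i w = y})

/-- PACKET CND (pure probability).  `A_n = {w : ∀ i ≥ n, X i w ≠ y}`.  For `m ≥ n` the cylinders of length `m` (countably many: they depend only on `x 0, .., x m`) partition the space, and `{w : ∀ i ∈ [n, m], X i w ≠ y}` is a union of cylinders, so
`μ(A_n) ≤ ∑_{cyl ⊆ avoid[n,m]} μ(cyl \ {∃ i ≥ m, X i = y}) ≤ (1 - c0) μ(avoid [n,m]) → (1 - c0) μ(A_n)` as `m → ∞`: `μ(A_n) = 0`. -/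
def CND_stmt : Prop := ∀ (Ω : Type) (_ : MeasurableSpace Ω) (μ : Measure Ω)
  [IsProbabilityMeasure μ] (X : ℕ → Ω → Site 2), (∀ n, Measurable (X n)) →
  ∀ (y : Site 2) (c0 : ℝ), 0 < c0 →
  (∀ (m : ℕ) (x : ℕ → Site 2), ENNReal.ofReal c0 * μ (cyl X x m) ≤
    μ (cyl X x m ∩ {w | ∃ i, m ≤ i ∧ X i w = y})) →
  ∀ᵐ w ∂μ, ∃ᶠ n in atTop, X n w = y

/-- PACKET MEG (may assume `EXC.MET_stmt`).  Push `ν` forward by `ζ ↦ (fun z _ _ => g (ζ z) : Env 2)`, which commutes with the shifts: the image is `SE` (a measurable shift invariant set has a measurable shift invariant preimage), and apply MET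
with `f σ = σ (0, true) 0` (bounded, as `E` is finite). -/
def MEG_stmt : Prop := ∀ (E : Type) [Fintype E] [MeasurableSpace E] [MeasurableSingletonClass E]
  (ν : Measure (Site 2 → E)) [IsProbabilityMeasure ν], SEs ν → ∀ g : E → ℝ,
  ∀ (h : ℕ → Site 2 → ℝ) (C : ℝ) (b k1 : ℕ),
  (∀ k, k1 ≤ k → ∀ x, x ∉ Bx b k → h k x = 0) → (∀ k, k1 ≤ k → ∀ x, |h k x| ≤ C / 4 ^ k) →
  (∀ k, k1 ≤ k → ∀ x y, |h k x - h k y| ≤ C / 8 ^ k * nm (x - y)) →
  (∀ k, k1 ≤ k → ∑ x ∈ Bx b k, h k x = 0) →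
  Tendsto (fun k => ∫ ζ, (∑ z ∈ Bx b k, h k z * g (ζ z)) ^ 2 ∂ν) atTop (nhds 0)

/-- PACKET FRQ (pure probability).  `P(∑_{k1≤k<s} Z_k > η s) ≤ (C0 + δ s)/(η s)` (Markov), `→ δ/η`; `{∃ᶠ s, A_s} = ⋂_n ⋃_{s≥n} A_s` has probability `≥ limsup P(A_s) ≥ 1 - δ/η`. -/
def FRQ_stmt : Prop := ∀ (Ω : Type) (_ : MeasurableSpace Ω) (P : Measure Ω)
  [IsProbabilityMeasure P] (Z : ℕ → Ω → ℝ) (k1 : ℕ) (δ η : ℝ), 0 < η →
  (∀ k, Measurable (Z k)) → (∀ k, k1 ≤ k → ∀ w, 0 ≤ Z k w) → (∀ k, k1 ≤ k → Integrable (Z k) P) →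
  (∀ᶠ k in atTop, ∫ w, Z k w ∂P ≤ δ) →
  MeasurableSet {w | ∃ᶠ s : ℕ in atTop, ∑ k ∈ Finset.Ico k1 s, Z k w ≤ η * s} ∧
  1 - δ / η ≤ P.real {w | ∃ᶠ s : ℕ in atTop, ∑ k ∈ Finset.Ico k1 s, Z k w ≤ η * s}

/-- PACKET GDM (may assume SCX, GQ, POI, MEG, FRQ, SMS).  `Scx` for `a` (SCX), `h0 = Df φ 0`, `S T R` from POI (as functions constant in `z`), `B` a common bound `≥ 1` of `|S|, |T|`, `BR` a bound of `|R|`, `ep = 0`: `Dat (chS p f) a B S`, `Poi (chS p f) ..`.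
`c0, η` from GQ (its `κ, C, b` from `Scx`).  `Z_k ζ = |∑ h_k z S (ζ z)| + |∑ h_k z T (ζ z)|` (`= |ck (0, ζ)| + |VV T h_k (0, ζ)|`): `E Z_k → 0` (MEG, Cauchy–Schwarz), so FRQ with every `δ > 0` gives a measurable set of `ν`-measure `1` of fields satisfying the hypothesis
of GQ (`e0 = ζ`).  By stationarity the same holds for all shifts of `ζ`, almost surely. -/
def GDM_stmt : Prop := ∀ (E : Type) [Fintype E] [MeasurableSpace E] [MeasurableSingletonClass E]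
  (p : E → E → ℝ) (f : E → ℝ) (a : ℝ) (ν : Measure (Site 2 → E)) [IsProbabilityMeasure ν],
  Stoch p → (∀ e, 0 ≤ f e ∧ f e ≤ 1) → 0 < a → a < 1 → MeanIs p f a → SEs ν →
  ∃ c0 : ℝ, 0 < c0 ∧ ∀ᵐ ζ ∂ν, ∀ (y : Site 2) (s0 : MSt E), {z | s0.2 z ≠ ζ (z + y)}.Finite →
    ∃ N : ℕ, c0 ≤ hp (chS p f) N s0

/-- PACKET FNM (may assume MKP, ANN, LNK, CND, GDM, HIE).  For `y, m, x` (`x 0 = 0`; otherwise `μ (cyl X x m) = 0`): by LNK, for every `N`, `μ(cyl ∩ {∃ i ≥ m, X i = y}) ≥ ∫⁻ pathProb · hp N (..) dQ`; `hp` is nondecreasing in `N` (HIE (3)) and its limit is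
at least `c0` for almost every `ξ` (GDM: `z ↦ ξ (z + y) (visits x m (z + y))` differs from `z ↦ ξ (z + y) 0` at finitely many sites, and `z ↦ ξ z 0` has law `ν`), so by monotone convergence it is at least `c0 ∫⁻ pathProb dQ = c0 μ(cyl X x m)`
(`IsERW.lintegral_cyl` with `g = 1`).  CND for every `y`; countably many sites. -/
def FNM_stmt : Prop := ∀ (E : Type) [Fintype E] [MeasurableSpace E] [MeasurableSingletonClass E]
  (p : E → E → ℝ) (f : E → ℝ) (a : ℝ) (ν : Measure (Site 2 → E)) [IsProbabilityMeasure ν]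
  (Q : Measure (Site 2 → ℕ → E)) [IsProbabilityMeasure Q],
  Stoch p → (∀ e, 0 ≤ f e ∧ f e ≤ 1) → 0 < a → a < 1 → MeanIs p f a → SEs ν → IsField p ν Q →
  ∀ (Ω : Type) (_ : MeasurableSpace Ω) (μ : Measure Ω) [IsProbabilityMeasure μ]
  (env : Ω → Env 2) (X : ℕ → Ω → Site 2), IsERW (Q.map (envOf f)) μ env X → Recurrent μ X

/-- PACKET UCA (stacks with uniform Cesàro limits).  (1) `tha = psum (i+1) + (h0/2)(..)²` has the uniform Cesàro limit `thL` (sums of uniformly Cesàro convergent sequences; the shift by one costs `2B/n`), bounded by `B + |h0|`, so `0 ≤ epn ≤ 2 (B + |h0|)` and `epn n → 0`.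
(2) `R l = -(1/n) ∑_{m<n} (n - 1 - m) tha (l + m)`: `R (l+1) - R l = tha l - (1/n) ∑_{i<n} tha (l + i)`, `|R| ≤ n (B + |h0|)`.
(3) measurability of `thL` and `epn n` (`limsup`, countable supremum) and of the set of good stacks is not needed. -/
def UCA_stmt : Prop := ∀ (a h0 B : ℝ), 0 < a → a < 1 → 1 ≤ B →
  (∀ σ : Stack 2, GSt a B σ → (∀ i, |tha a h0 σ i| ≤ B + |h0|) ∧ |thL a h0 σ| ≤ B + |h0| ∧
    (∀ n, 0 ≤ epn a h0 n σ ∧ epn a h0 n σ ≤ 2 * (B + |h0|)) ∧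
    Tendsto (fun n => epn a h0 n σ) atTop (nhds 0) ∧
    ∀ n, 1 ≤ n → ∀ m, |(∑ i ∈ Finset.range n, tha a h0 σ (m + i)) / n - thL a h0 σ| ≤
      epn a h0 n σ) ∧
  Measurable (thL a h0) ∧ (∀ n, Measurable (epn a h0 n)) ∧
  ∀ n : ℕ, 1 ≤ n → ∀ u : ℕ → ℝ, (∀ i, |u i| ≤ B + |h0|) → ∃ R : ℕ → ℝ,
    (∀ l, |R l| ≤ n * (B + |h0|)) ∧
    ∀ l, R (l + 1) - R l = u l - (∑ i ∈ Finset.range n, u (l + i)) / n

/-- PACKET GDA (may assume SCX, GQ, UCA, FRQ, SMS, `EXC.STA_stmt`, `EXC.MET_stmt`).  `Scx` for `a`, `h0 = Df φ 0`, `B' = B + |h0| ≥ 1`, `c0, η` from GQ with `B'`.  For `ω` with all stacks in `GSt a B` (almost sure, countably many sites, stationarity `SE.map_eq`) and `n ≥ 1`: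
`U = detS (pw ω)`, `S z j = psum a (ω z) j`, `T z _ = thL (ω z)`, `ep z = epn n (ω z)`, `R z` from UCA, `BR = n B' + 2 B'`.  `Th U a h0 S z i = tha a h0 (ω z) i` (`cv U S S = (2ω-a)²`), `cv U S T = 0`: `Dat`, `Poi`.
`e0 = 0`: `ck (0, 0) = 0`.  `Z_k = |∑ h_k z thL (ω z)| + ∑ |h_k z| epn n (ω z)` (use truncated versions of `thL`, `epn`, e.g. `max (-B') (min B' ·)`, to have bounded functions everywhere): `E Z_k ≤ o(1) + C' E epn n (ω 0)` (MET, STA), and `E epn n (ω 0) → 0` as `n → ∞` (dominated convergence).  FRQ: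
the event that GQ applies with this `n` has probability `≥ 1 - δ_n/η`, `δ_n → 0`; so almost surely some `n` works.  GQ and `MKV.hp (detS p) = EXC.hp p` (induction) give the claim at `y = 0`, stationarity for all `y`. -/
def GDA_stmt : Prop := ∀ (P : Measure (Env 2)) [IsProbabilityMeasure P], SE P → ∀ a B : ℝ,
  0 < a → a < 1 → 1 ≤ B → (∀ᵐ ω ∂P, GSt a B (ω 0)) → ∃ c0 : ℝ, 0 < c0 ∧ c0 ≤ 1 ∧
  ∀ᵐ ω ∂P, ∀ (y : Site 2) (s0 : St), {z | s0.2 z ≠ 0}.Finite →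
    ∃ N : ℕ, c0 ≤ Pool.Agent.Helper99.EXC.hp (pw (shift y ω)) N s0

/-- PACKET FNA (may assume GDA, CND, `EXC.HGL_stmt`).  `G` = a measurable set of full measure on which the conclusion of GDA holds.  For `y, m, x`: HGL with `E = cyl X x m ∩ {shift y (env w) ∈ G'}` where `G' = ⋂_y (shift y)⁻¹ ..` is chosen measurable of full measure
(`toMeasurable` of the complement), gives `μ.real (cyl \ hitSet X 0 y m) ≤ (1 - c0) μ.real cyl` (`box 2 0 = {0}`), i.e. the hypothesis of CND. -/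
def FNA_stmt : Prop := ∀ (Ω : Type) (_ : MeasurableSpace Ω) (P : Measure (Env 2))
  [IsProbabilityMeasure P] (μ : Measure Ω) [IsProbabilityMeasure μ] (env : Ω → Env 2)
  (X : ℕ → Ω → Site 2), IsERW P μ env X → (∀ᵐ ω ∂P, IsCookieEnv ω) → (∀ᵐ ω ∂P, IsBalanced ω) →
  SE P → ∀ a B : ℝ, 0 < a → a < 1 → 1 ≤ B → (∀ᵐ ω ∂P, GSt a B (ω 0)) → Recurrent μ X

end Pool.Agent.Helper99.MKV
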