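import Pool.Agent.Helper99.MKV.SCX
import Pool.Agent.Helper99.MKV.GoalsR
import Pool.Agent.Helper99.EXC.Final
import Pool.Agent.Helper89.MKV.SMS
import Pool.Agent.Helper56.MKV.GRK
import Pool.Agent.Helper89.MKV.FMK
import Pool.Agent.Helper42.MKV.PSA
import Pool.Agent.Helper31.MKV.INC
import Pool.Agent.Helper75.MKV.DRG
import Pool.Agent.Helper13.MKV.VIS
import Pool.Agent.Helper93.MKV.DRF
import Pool.Agent.Helper32.MKV.BDQ
import Pool.Agent.Helper69.MKV.BDZ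
import Pool.Agent.Helper3.MKV.YVB
import Pool.Agent.Helper87.MKV.LMA
import Pool.Agent.Helper15.MKV.FNW
import Pool.Agent.Helper33.MKV.FNE
import Pool.Agent.Helper59.MKV.YYB
import Pool.Agent.Helper4.MKV.DYY
import Pool.Agent.Helper81.MKV.SQS
import Pool.Agent.Helper88.MKV.VSM
import Pool.Agent.Helper27.MKV.GQ
import Pool.Agent.Helper34.MKV.POI
import Pool.Agent.Helper89.MKV.MKP
import Pool.Agent.Helper38.MKV.ANN
import Pool.Agent.Helper43.MKV.LNK
import Pool.Agent.Helper35.MKV.CND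
import Pool.Agent.Helper37.MKV.MEG
import Pool.Agent.Helper35.MKV.FRQ
import Pool.Agent.Helper60.MKV.GDM
import Pool.Agent.Helper20.MKV.FNM
import Pool.Agent.Helper8.MKV.UCA
import Pool.Agent.Helper58.MKV.GDA
import Pool.Agent.Helper76.MKV.FNA

/-! # MKV: assembly (with the last packets as hypotheses) -/

open Finset MeasureTheory ProbabilityTheory Filter
open scoped ENNReal

namespace Pool.Agent.Helper99.MKV

open Pool.Agent.Helper99.ERW Pool.Agent.Helper99.EXC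

theorem sms : SMS_stmt := Pool.Agent.Helper89.MKV.SMS

theorem inc : INC_stmt := Pool.Agent.Helper31.MKV.INC

theorem drg : DRG_stmt := Pool.Agent.Helper75.MKV.DRG inc

theorem vis : VIS_stmt := Pool.Agent.Helper13.MKV.VIS sms drg

theorem psa : PSA_stmt := Pool.Agent.Helper42.MKV.PSA sms

theorem drf : DRF_stmt := Pool.Agent.Helper93.MKV.DRF sms drg

theorem bdq : BDQ_stmt := Pool.Agent.Helper32.MKV.BDQ sms inc

theorem bdz : BDZ_stmt := Pool.Agent.Helper69.MKV.BDZ sms inc psa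

theorem yvb (hFVB : FVB_stmt) : YVB_stmt := Pool.Agent.Helper3.MKV.YVB inc bdq bdz hFVB drf

theorem lma (hFVB : FVB_stmt) : LMA_stmt := Pool.Agent.Helper87.MKV.LMA sms inc vis (yvb hFVB)

theorem yyb (hFVB : FVB_stmt) : YYB_stmt :=
  Pool.Agent.Helper59.MKV.YYB sms inc psa bdz (yvb hFVB)

theorem dyy : DYY_stmt := Pool.Agent.Helper4.MKV.DYY drg drf

theorem fne (hFVB : FVB_stmt) : FNE_stmt := Pool.Agent.Helper33.MKV.FNE sms hFVB

theorem gq (hSQM : SQM_stmt) (hHIE : HIE_stmt) : GQ_stmt :=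
  Pool.Agent.Helper27.MKV.GQ (Pool.Agent.Helper81.MKV.SQS sms hSQM)
    (Pool.Agent.Helper88.MKV.VSM drg) vis hHIE

theorem scx (hLPK : LPK_stmt) : SCX_stmt :=
  SCX (Pool.Agent.Helper56.MKV.GRK sms ffp) Pool.Agent.Helper89.MKV.FMK hLPK

theorem ann : ANN_stmt := Pool.Agent.Helper38.MKV.ANN Pool.Agent.Helper89.MKV.MKP

theorem lnk : LNK_stmt :=
  Pool.Agent.Helper43.MKV.LNK ann (Pool.Agent.Helper83.EXC.HPL Pool.Agent.Helper83.EXC.ONE)

theorem gdm (hLPK : LPK_stmt) (hSQM : SQM_stmt) (hHIE : HIE_stmt) : GDM_stmt :=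
  Pool.Agent.Helper60.MKV.GDM (scx hLPK) (gq hSQM hHIE) Pool.Agent.Helper34.MKV.POI
    (Pool.Agent.Helper37.MKV.MEG met) Pool.Agent.Helper35.MKV.FRQ sms

theorem fnm (hLPK : LPK_stmt) (hSQM : SQM_stmt) (hHIE : HIE_stmt) : FNM_stmt :=
  Pool.Agent.Helper20.MKV.FNM Pool.Agent.Helper89.MKV.MKP ann lnk Pool.Agent.Helper35.MKV.CND
    (gdm hLPK hSQM hHIE) hHIE

theorem gda (hLPK : LPK_stmt) (hSQM : SQM_stmt) (hHIE : HIE_stmt) : GDA_stmt :=
  Pool.Agent.Helper58.MKV.GDA (scx hLPK) (gq hSQM hHIE) Pool.Agent.Helper8.MKV.UCA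
    Pool.Agent.Helper35.MKV.FRQ sms sta met

theorem fna (hLPK : LPK_stmt) (hSQM : SQM_stmt) (hHIE : HIE_stmt) : FNA_stmt :=
  Pool.Agent.Helper76.MKV.FNA (gda hLPK hSQM hHIE) Pool.Agent.Helper35.MKV.CND hgl

end Pool.Agent.Helper99.MKV
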