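import Pool.Agent.Helper99.MKV.Defs
import Pool.Agent.Helper99.EXC.GoalsK
import Pool.Agent.Helper99.EXC.GoalsS

/-!
# MKV, part A: lattice sums and further properties of the kernels (exact statements of the packets)

`Bx b k = box 2 (b 2^k)`, `nm` is the sup norm, `Ker`, `Scl`, `hk` are in `EXC/Defs.lean`, `Phi` in `EXC/GoalsS.lean`.
-/

open Finset

namespace Pool.Agent.Helper99.MKV

open Pool.Agent.Helper99.ERW Pool.Agent.Helper99.EXC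

/-- PACKET SMS (lattice sums; `EXC.LAT_stmt` is proved in `Helper61/EXC/LAT.lean` and may be used).  Rings of the sup norm: at most `8 j` points with
`nm = j ≥ 1`, one with `nm = 0`.
(1) card.  (2), (3): if `z ∈ Bx b (k+1)` then `u - z ∈ Bx b (k+2)` for `u ∈ Bx b k` (injective in `u`), so the sum is at most the sum over `w ∈ Bx b (k+2)` of
`1/(1+nm w)²`, `1/(1+nm w)`, i.e. `≤ C (k+3)`, `≤ C 2^k`; if `z ∉ Bx b (k+1)` then `nm (u - z) ≥ b 2^k`, each term is `≤ 1/4^k`, resp. `1/2^k`, and (1).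
(4), (5): `∑_{j > b 2^k} 8 j / j³ ≤ C/2^k`, `∑_{j > b2^k} 8 j/j⁴ ≤ C/4^k`.
(6), (7): inside `Bx b (k+1)`: (1); outside: `2^k · (4)` and `4^k · (5)` with `k + 1`.
(8): if `x ∈ Bx b (k+1)`: left `= 1/2^(k+m) ≤ 1/2^k`.  If `x ∈ Bx b (k+m+1)` but not in `Bx b (k+1)`: left `= 1/2^(k+m)`, and `1 + nm x ≤ 2^k (1 + b 2^(m+1))`, so
the right side is `≥ 1/2^k`.  Otherwise left `= 2^m Gk b k x`. -/
def SMS_stmt : Prop := ∀ b : ℕ, 1 ≤ b → ∃ C : ℝ, 1 ≤ C ∧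
  (∀ k : ℕ, ((Bx b k).card : ℝ) ≤ C * 4 ^ k) ∧
  (∀ (k : ℕ) (z : Site 2), ∑ u ∈ Bx b k, 1 / (1 + nm (u - z)) ^ 2 ≤ C * (k + 1)) ∧
  (∀ (k : ℕ) (z : Site 2), ∑ u ∈ Bx b k, 1 / (1 + nm (u - z)) ≤ C * 2 ^ k) ∧
  (∀ k s : ℕ, ∑ y ∈ Bx b s \ Bx b k, 1 / (1 + nm y) ^ 3 ≤ C / 2 ^ k) ∧
  (∀ k s : ℕ, ∑ y ∈ Bx b s \ Bx b k, 1 / (1 + nm y) ^ 4 ≤ C / 4 ^ k) ∧
  (∀ k s : ℕ, ∑ x ∈ Bx b s, Nk b k x ≤ C) ∧
  (∀ k s : ℕ, ∑ x ∈ Bx b s, Gk b k x ^ 2 ≤ C) ∧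
  ∀ (k m : ℕ) (x : Site 2), Gk b (k + m) x ≤ (1 + b * 2 ^ (m + 1)) ^ 2 * Gk b k x

/-- PACKET GRK (may assume SMS, FFP).  Gradients.  `Phi κ φ k x = κ k + FF (φ x - κ k)`, `FF` is `1`-Lipschitz (FFP), so
`|Φ_k (x+e) - Φ_k x| ≤ |φ (x+e) - φ x| ≤ C0/(1+nm x)` (`Ker.d1`): first item.
Moreover the left side is `0` when `φ x ≤ κk` and `φ (x+e) ≤ κk` (`FF = 1/2` there), and otherwise `κ logb 2 (1+nm y) + C0 > κ k` for `y = x` or `y = x + e`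
(`Ker.log`), so `2 (1 + nm x) ≥ 1 + nm y ≥ c 2^k`, `c = 2^(-C0/κ)`: always `|Φ_k (x+e) - Φ_k x| ≤ 2 C0/(c 2^k)`.
Second item: `∑_{z∈Bx b k} C0/(1 + nm (x - z)) ≤ C 2^k` (SMS (3), `nm (x-z) = nm (z-x)`) plus card times the last bound.
Third item: `x ∉ Bx b (k+1)`: `x, x + e ∉ Bx b k`, so `Φ_k = φ` at both (`Scl.out`).  The quantity is `g (x - z) - g x` with `g u = φ (u + e) - φ u`; go from `x`
to `x - z` by `|z 0| + |z 1| ≤ 2 b 2^k` unit steps, each changes `g` by a mixed second difference `Ker.d2` at a point `u` with `nm u ≥ nm x - b 2^k ≥ nm x/2`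
(and `nm x ≥ 1`), at most `4 C0/(1+nm x)²` up to a constant factor. -/
def GRK_stmt : Prop := ∀ (a : ℝ) (φ : Site 2 → ℝ) (κ C0 : ℝ), Ker a φ κ C0 →
  ∀ (C : ℝ) (b k1 : ℕ), Scl a φ (Phi κ φ) κ C b k1 → ∃ C' : ℝ, ∀ k, k1 ≤ k → ∀ x (e : Dir 2),
  |Phi κ φ k (x + vec e) - Phi κ φ k x| ≤ C' / (1 + nm x) ∧
  ∑ z ∈ Bx b k, |(φ (x + vec e - z) - Phi κ φ k (x + vec e)) - (φ (x - z) - Phi κ φ k x)| ≤
    C' * 2 ^ k ∧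
  ∀ z ∈ Bx b k, x ∉ Bx b (k + 1) →
    |(φ (x + vec e - z) - Phi κ φ k (x + vec e)) - (φ (x - z) - Phi κ φ k x)| ≤
      C' * 2 ^ k / (1 + nm x) ^ 2

/-- PACKET FMK (`ℓ²` bound for the truncated kernels).  `u = Φ_k - φ` vanishes off `Bx b k` (`out`), `La a u = μ_k - [x = 0]` (`lap`, linearity), `μ_k = La a Φ_k`.
Discrete Green identity: for `u` of finite support and any `g`, `∑_w (La a u w) g w = ∑_w u w (La a g w)` (sum over a box large enough; each second difference is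
symmetric: translate the sum).  With `g w = φ (x - w)`, `La a g w = [w = x]` (`even`, `lap`), so
`u x = ∑_{w∈Bx b k} μ_k w φ (x - w) - φ x`, i.e. `Φ_k x = ∑_{w ∈ Bx b k} μ_k w φ (x - w)`; with `g = 1`: `∑_{Bx b k} μ_k = 1` (`muS`).  Hence
`Df Φ_k u = ∑_w μ_k w Df φ (u - w)` and the form is a convex combination (`mu0`) of the forms `∑_z ∑_y f z Df φ (y - w - z) g y`; for fixed `w` this is the form of
`Df φ` on the finset `B ∪ (B - w)` with `f` (extended by zero off `B`) and `g' y' = g (y' + w)` on `B - w`, zero elsewhere: apply `form`, the sums of squares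
are unchanged. -/
def FMK_stmt : Prop := ∀ (a : ℝ) (φ : Site 2 → ℝ) (Φ : ℕ → Site 2 → ℝ) (κ C : ℝ) (b k1 : ℕ),
  Scl a φ Φ κ C b k1 → ∀ k, k1 ≤ k → ∀ (B : Finset (Site 2)) (f g : Site 2 → ℝ),
    |∑ z ∈ B, ∑ y ∈ B, f z * Df (Φ k) (y - z) * g y| ≤
      C * Real.sqrt (∑ z ∈ B, f z ^ 2) * Real.sqrt (∑ y ∈ B, g y ^ 2)

/-- PACKET LPK (Lipschitz bound of the truncated kernels).  `Df Φ_k = ∑_{k≤i<n} hk Φ i + Df Φ_n` (telescoping), so by `hL` and `dphi1`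
`|Df Φ_k x - Df Φ_k y| ≤ ∑_{i≥k} C/8^i nm (x - y) + 2 C/4^n ≤ (8/7) (C/8^k) nm (x-y) + 2C/4^n`; let `n → ∞`. -/
def LPK_stmt : Prop := ∀ (a : ℝ) (φ : Site 2 → ℝ) (Φ : ℕ → Site 2 → ℝ) (κ C : ℝ) (b k1 : ℕ),
  Scl a φ Φ κ C b k1 → ∀ k, k1 ≤ k → ∀ x y,
    |Df (Φ k) x - Df (Φ k) y| ≤ 2 * C / 8 ^ k * nm (x - y)

/-- Assembly (from GRK, FMK, LPK and `EXC.scales`, `EXC.ker_all`). -/
def SCX_stmt : Prop := ∀ a : ℝ, 0 < a → a < 1 →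
  ∃ (φ : Site 2 → ℝ) (Φ : ℕ → Site 2 → ℝ) (κ C : ℝ) (b k1 : ℕ), Scx a φ Φ κ C b k1

/-- PACKET PSA (may assume SMS).  Potentials of rough weights (`|w| ≤ W/4^k` on `Bx b k`, zero elsewhere).  `Ek φ Φ k y z = Df φ (y - z) - Df (Φ k) y`.
For `y ∉ Bx b (k+1)`, `z ∈ Bx b k`: `|Ek| ≤ C 2^k/(1+nm y)³` (`far`).  `card (Bx b k) ≤ C4 4^k`.
(1) Far `y`: `∑_z |w z| ≤ C4 W` and SMS (4).  Near `y ∈ Bx b (k+1)`: the part with `Df Φ_k y`: `card · C4 W · C/4^k` (`dphi1`); the part with `Df φ (y - z)`: `form` on the finset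
`Bx b (k+1)` with `f = w` (it vanishes off `Bx b k`) and `g y =` sign of `∑_z w z Df φ (y - z)`: `∑_y |..| ≤ C √(∑ w²) √card ≤ C card W/4^k`.
(2) near: `∑_z (W/4^k)(C/(1+nm(y-z))² + C/4^k) ≤ C' W (k+1)/4^k ≤ C' W/2^k` (`hbd`, SMS (2), `k + 1 ≤ 2^k`); far: `≤ C' W 2^k/(1+nm y)³`.
(3) Cauchy–Schwarz and `psi2`: `(W/4^k) √card √(C 4^k)`.
(4) near: `gradN` times `W/4^k`; far: `gradF` times `∑|w|`.
(5) near: `∑_y C/(1+nm(y-z))² + C/4^k ≤ C'(k+1)`; far: SMS (4). -/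
def PSA_stmt : Prop := ∀ (κ C : ℝ) (b : ℕ), 1 ≤ b → ∃ C' : ℝ, 0 ≤ C' ∧ ∀ (a : ℝ) (φ : Site 2 → ℝ)
  (Φ : ℕ → Site 2 → ℝ) (k1 : ℕ), Scx a φ Φ κ C b k1 → ∀ k, k1 ≤ k →
  (∀ (W : ℝ) (w : Site 2 → ℝ), Rt b k W w →
    (∀ s, ∑ y ∈ Bx b s, |∑ z ∈ Bx b k, w z * Ek φ Φ k y z| ≤ C' * W) ∧
    (∀ y, |∑ z ∈ Bx b k, w z * Ek φ Φ k y z| ≤ C' * W * Gk b k y) ∧
    (∀ x, ∑ z ∈ Bx b k, |w z| * |φ (x - z) - Φ k x| ≤ C' * W) ∧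
    ∀ x (e : Dir 2), ∑ z ∈ Bx b k, |w z| *
      |(φ (x + vec e - z) - Φ k (x + vec e)) - (φ (x - z) - Φ k x)| ≤ C' * W * Gk b k x) ∧
  ∀ z ∈ Bx b k, ∀ s, ∑ y ∈ Bx b s, |Ek φ Φ k y z| ≤ C' * (k + 1)

end Pool.Agent.Helper99.MKV
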