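import Pool.Agent.Helper99.MKV.GoalsA

/-!
# MKV, part C: the walk in one system (exact statements of the packets)

Notation in the proofs: `Λ = Bx b (s + 1)`, `x = t.1` the position of the state `t`, `g_z = g z (t.2 z)` the value of `g` at the state of `z`, `h_k = hk Φ k`,
`μ_k = La a (Φ k)`, `h0 = Df φ 0`, `c_k = ck Φ S b k`.  `Dr U F t = stp U F t - F t` is the drift, `Rw U Λ N g s0 = E ∑_{m<N} g(t_m) 1(t_m ∈ Λ)`, `Ex U Λ N F s0 = E F(t_N)`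
(walk stopped at the exit from `Λ`).  `C'` denotes constants of the allowed kind.  Rules for `stp, Ex, Rw, Dr, Gam` are in `MKV/Basic.lean` (`tele_Dr`, `Rw_parts`, `Dr_mul`, `Gam_abs_le`,
`stp_pos`, `stp_site`, `stp_state`, `Ex_mono_inv`, ...).
-/

open Finset

namespace Pool.Agent.Helper99.MKV

open Pool.Agent.Helper99.ERW Pool.Agent.Helper99.EXC

/-- PACKET INC.  Increments: the step changes the position to `x + e` and only the state of `x`.  Split the sums at `z = x`.  In the third item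
`BL(new) - BL = [x∈D] α ∑_{z∈D'} M x z g'_z + [x∈D'] β ∑_{y∈D} M y x g_y + [both] α β M x x` with `α, β` the changes of `g_x`, `g'_x`. -/
def INC_stmt : Prop := ∀ (E ι : Type) [Fintype ι] (U : Sys E ι) (t : MSt E) (i : ι) (e : Dir 2),
  (∀ (g : Site 2 → E → ℝ) (D : Finset (Site 2)) (v : Site 2 → ℝ),
    VV g D v (nxt U t i e) - VV g D v t =
      if t.1 ∈ D then v t.1 * (g t.1 (U.nx t.1 (t.2 t.1) i) - g t.1 (t.2 t.1)) else 0) ∧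
  (∀ (φ Ψ : Site 2 → ℝ) (g : Site 2 → E → ℝ) (D : Finset (Site 2)) (v : Site 2 → ℝ),
    ZZ φ Ψ g D v (nxt U t i e) - ZZ φ Ψ g D v t =
      (∑ z ∈ D, v z * g z (t.2 z) *
        ((φ (t.1 + vec e - z) - Ψ (t.1 + vec e)) - (φ (t.1 - z) - Ψ t.1))) +
      if t.1 ∈ D then v t.1 * (g t.1 (U.nx t.1 (t.2 t.1) i) - g t.1 (t.2 t.1)) *
        (φ (t.1 + vec e - t.1) - Ψ (t.1 + vec e)) else 0) ∧
  ∀ (g g' : Site 2 → E → ℝ) (D D' : Finset (Site 2)) (M : Site 2 → Site 2 → ℝ),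
    BL g g' D D' M (nxt U t i e) - BL g g' D D' M t =
      (if t.1 ∈ D then (g t.1 (U.nx t.1 (t.2 t.1) i) - g t.1 (t.2 t.1)) *
        ∑ z ∈ D', M t.1 z * g' z (t.2 z) else 0) +
      (if t.1 ∈ D' then (g' t.1 (U.nx t.1 (t.2 t.1) i) - g' t.1 (t.2 t.1)) *
        ∑ y ∈ D, M y t.1 * g y (t.2 y) else 0) +
      (if t.1 ∈ D ∧ t.1 ∈ D' then (g t.1 (U.nx t.1 (t.2 t.1) i) - g t.1 (t.2 t.1)) *
        (g' t.1 (U.nx t.1 (t.2 t.1) i) - g' t.1 (t.2 t.1)) * M t.1 t.1 else 0)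

/-- PACKET DRG (may assume INC).  Drifts.  (1) `stp_state` and `stp_sum`.  (2) `stp_site` with `Ψ_z x = φ (x - z) - Ψ x`, `La a Ψ_z x = [x = z] - La a Ψ x` (translate `secondDiff`, see
`secondDiff_translate`), `Df Ψ_z x = Df φ (x - z) - Df Ψ x`; the correction at `z = x` is `(av g - g)(Ψ_x x + La a Ψ_x x + dd Df Ψ_x x)`.
(3) INC third item, averaged: `stp` of a function of the new state of `x` only. -/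
def DRG_stmt : Prop := ∀ (E ι : Type) [Fintype ι] (U : Sys E ι), U.Ok → ∀ t : MSt E,
  (∀ (g : Site 2 → E → ℝ) (D : Finset (Site 2)) (v : Site 2 → ℝ), Dr U (VV g D v) t =
    if t.1 ∈ D then v t.1 * (av U t.1 (g t.1) (t.2 t.1) - g t.1 (t.2 t.1)) else 0) ∧
  (∀ (a : ℝ) (φ Ψ : Site 2 → ℝ), (∀ x, La a φ x = if x = 0 then 1 else 0) →
    ∀ (g : Site 2 → E → ℝ) (D : Finset (Site 2)) (v : Site 2 → ℝ), Dr U (ZZ φ Ψ g D v) t =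
      (if t.1 ∈ D then v t.1 * g t.1 (t.2 t.1) else 0) - La a Ψ t.1 * VV g D v t +
      dd U a t * (∑ z ∈ D, v z * g z (t.2 z) * (Df φ (t.1 - z) - Df Ψ t.1)) +
      if t.1 ∈ D then v t.1 * (av U t.1 (g t.1) (t.2 t.1) - g t.1 (t.2 t.1)) *
        (φ 0 - Ψ t.1 + (1 - La a Ψ t.1) + dd U a t * (Df φ 0 - Df Ψ t.1)) else 0) ∧
  ∀ (g g' : Site 2 → E → ℝ) (D D' : Finset (Site 2)) (M : Site 2 → Site 2 → ℝ),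
    Dr U (BL g g' D D' M) t =
      (if t.1 ∈ D then (av U t.1 (g t.1) (t.2 t.1) - g t.1 (t.2 t.1)) *
        ∑ z ∈ D', M t.1 z * g' z (t.2 z) else 0) +
      (if t.1 ∈ D' then (av U t.1 (g' t.1) (t.2 t.1) - g' t.1 (t.2 t.1)) *
        ∑ y ∈ D, M y t.1 * g y (t.2 y) else 0) +
      (if t.1 ∈ D ∧ t.1 ∈ D' then cv U g g' t.1 (t.2 t.1) * M t.1 t.1 else 0)

/-- PACKET VIS (may assume SMS, DRG).  Expected occupation.  For `z ∈ Λ` put `F t = φ (x - z) - ∑_{y∈Λ} Df φ (y - z) S_y`.  By `stp_pos` (with `φ (· - z)`, `lap`) and DRG (1) (`ps`: `av S - S = dd`),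
`Dr F t = [x = z]` for `x ∈ Λ`.  `tele_Dr` (and `Rw_congr`): `Rw [x = z] = Ex F - F s0`.  For `s0.1 ∈ Λ` the positions stay in `Bx b (s+2)` (`Ex_mono_inv`), where
`φ (x - z) ≤ Φ_{s+1} (x - z) ≤ κ (s+1) + C` (`ge`, `up` with `k = s = s + 1`; `x - z ∈ Bx b (s+3)`), `φ ≥ -C` (`plow`), and `|∑_y Df φ (y-z) S_y| ≤ B ∑_{y∈Λ} C/(1+nm(y-z))² ≤ C'(s+1)` (`hbd`, SMS (2)).
So `Rw [x = z] ≤ C' (s+1)`; sum over `z ∈ Λ` with the weights `g z` (`Rw_sum`, `Rw_smul`, `Rw_congr`).  If `s0.1 ∉ Λ`: `Rw_out`. -/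
def VIS_stmt : Prop := ∀ (κ C : ℝ) (b : ℕ) (B : ℝ), 0 < κ → 1 ≤ C → 1 ≤ b → 1 ≤ B →
  ∃ C' : ℝ, 0 ≤ C' ∧ ∀ (E ι : Type) [Fintype ι] (U : Sys E ι) (a : ℝ) (S : Site 2 → E → ℝ)
  (φ : Site 2 → ℝ) (Φ : ℕ → Site 2 → ℝ) (k1 : ℕ), Dat U a B S → Scx a φ Φ κ C b k1 →
  ∀ (s : ℕ), k1 ≤ s → ∀ (N : ℕ) (s0 : MSt E) (g : Site 2 → ℝ), (∀ x, 0 ≤ g x) →
    Rw U (Bx b (s + 1)) N (fun t => g t.1) s0 ≤ C' * (s + 1) * ∑ x ∈ Bx b (s + 1), g x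

/-- PACKET DRF (may assume SMS, DRG).  Drift of the corrected charge (`j ≤ k`).  Compute with DRG (all weights vanish off `Bx b k`; `D = Bx b (k+1)` in `QQ`).
`Dr (κk VV S v) = κ k v_x dd`; `Dr (VV S (v (κk - Φ_k))) = v_x (κk - Φ_k x) dd`;
`Dr ZZ = v_x S_x - μ_k x VV S v + dd ∑_z v z S_z (Df φ (x-z) - Df Φ_k x) + v_x dd (-Φ_k x + 1 - μ_k x + dd (h0 - Df Φ_k x))` (`φ 0 = 0`);
for `x ∈ Bx b (k+1)`, by symmetry of `M(y,z) = (v y + v z)/2 H(y - z)` (`H = Hj φ (Φ j)` is even: `even`, `evk`):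
`Dr QQ = dd ∑_{z∈Bx b (k+1)} (v z + v x)/2 H(x - z) S_z + (1/2) v_x H(0) cv U S S`, and `Dr QQ = 0` otherwise.
Total for `x ∈ Bx b (k+1)`, using `S_x + dd = av S`, `Df φ = H + Df Φ_j` and `v = 0` off `Bx b k`:
`Dr Yv - Dv = - v_x dd (μ_k x + dd Df Φ_k x) + (1/2) v_x Df Φ_j 0 · cv U S S - dd ∑_{z∈Bx b (k+1)} (v x - v z)/2 H(x - z) S_z`.
First: `≤ (A/4^k) 2C/4^k`; second: `≤ (A/4^k)(C/4^j) 2B²`; third: `H` vanishes off `Bx b j` (`dout`), `|H u| ≤ 2C/(1+nm u)²` (`hbd`, `dphi2`), `|v x - v z| ≤ A/8^k nm(x - z)`: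
`≤ (B/2)(A/8^k) ∑_{u∈Bx b j} 2C/(1+nm u) ≤ C' A 2^j/8^k` (SMS (3)).
For `x ∉ Bx b (k+1)`: `v x = 0`, `Dr QQ = 0`, and for `z ∈ Bx b k`: `x - z ∉ Bx b k ⊇ Bx b j`, so `Df Φ_j (x-z) = Df φ (x-z)` (`dout`): equality. -/
def DRF_stmt : Prop := ∀ (κ C : ℝ) (b : ℕ) (B : ℝ), 0 < κ → 1 ≤ C → 1 ≤ b → 1 ≤ B →
  ∃ C' : ℝ, 0 ≤ C' ∧ ∀ (E ι : Type) [Fintype ι] (U : Sys E ι) (a : ℝ) (S : Site 2 → E → ℝ)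
  (φ : Site 2 → ℝ) (Φ : ℕ → Site 2 → ℝ) (k1 : ℕ), Dat U a B S → Scx a φ Φ κ C b k1 →
  ∀ (j k : ℕ), k1 ≤ j → j ≤ k → ∀ (A : ℝ) (v : Site 2 → ℝ), Wt b k A v → ∀ t : MSt E,
    (t.1 ∈ Bx b (k + 1) → |Dr U (Yv κ φ Φ S b j k v) t - Dv U a φ Φ S b j k v t| ≤
      C' * A * (2 ^ j / 2 ^ k + 1 / 4 ^ j) / 4 ^ k) ∧
    (t.1 ∉ Bx b (k + 1) → Dr U (Yv κ φ Φ S b j k v) t = Dv U a φ Φ S b j k v t)

/-- PACKET BDQ (may assume SMS, INC).  `H = Hj φ (Φ j)` is even and `|H u| ≤ 2C/(1+nm u)²`.  (1) By evenness (exchange the sums) `QQ = (1/2) ∑∑ v y H(y - z) S_y S_z`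
`= (1/2)(form of Df φ) - (1/2)(form of Df Φ_j)` with `f = v S`, `g = S` on `Bx b (k+1)` (`form`, `formk`, up to `u ↦ -u`): `≤ C √(∑ v² S²) √(∑ S²) ≤ C (A/4^k) B² card ≤ C' A`.
(2) INC (3): zero if `x ∉ Bx b (k+1)`; otherwise with `|α| ≤ 2B`: `≤ 2B · B ∑_{z∈Bx b (k+1)} (A/4^k) |H(x - z)| + (1/2) 4B² (A/4^k) |H 0| ≤ C' A (k+2)/4^k ≤ C' A/2^k` (SMS (2)). -/
def BDQ_stmt : Prop := ∀ (κ C : ℝ) (b : ℕ) (B : ℝ), 0 < κ → 1 ≤ C → 1 ≤ b → 1 ≤ B →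
  ∃ C' : ℝ, 0 ≤ C' ∧ ∀ (E ι : Type) [Fintype ι] (U : Sys E ι) (a : ℝ) (S : Site 2 → E → ℝ)
  (φ : Site 2 → ℝ) (Φ : ℕ → Site 2 → ℝ) (k1 : ℕ), Dat U a B S → Scx a φ Φ κ C b k1 →
  ∀ (j k : ℕ), k1 ≤ j → j ≤ k → ∀ (A : ℝ) (v : Site 2 → ℝ), Rt b k A v → ∀ t : MSt E,
    |QQ (Hj φ (Φ j)) S (Bx b (k + 1)) v t| ≤ C' * A ∧
    ∀ (i : ι) (e : Dir 2), |QQ (Hj φ (Φ j)) S (Bx b (k + 1)) v (nxt U t i e) -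
      QQ (Hj φ (Φ j)) S (Bx b (k + 1)) v t| ≤ C' * A * Gk b k t.1

/-- PACKET BDZ (may assume SMS, INC, PSA).  Here `g` is any function with `|g| ≤ B`.  (1) `card · (W/4^k) · B`.  (2) PSA (3).  (3) INC (1): `≤ 2 B W/4^k` if `x ∈ Bx b k`, else `0`.
(4) INC (2): the first sum by PSA (4); the second term, for `x ∈ Bx b k`: `|φ (x + e - x) - Φ_k (x+e)| ≤ C (k+1)` (`psiA` at `x + e`), so `≤ (W/4^k) 2B C (k+1) ≤ C' W/2^k`, `k + 1 ≤ 2^k`. -/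
def BDZ_stmt : Prop := ∀ (κ C : ℝ) (b : ℕ) (B : ℝ), 0 < κ → 1 ≤ C → 1 ≤ b → 1 ≤ B →
  ∃ C' : ℝ, 0 ≤ C' ∧ ∀ (E ι : Type) [Fintype ι] (U : Sys E ι) (a : ℝ) (g : Site 2 → E → ℝ)
  (φ : Site 2 → ℝ) (Φ : ℕ → Site 2 → ℝ) (k1 : ℕ), (∀ z e, |g z e| ≤ B) →
  Scx a φ Φ κ C b k1 → ∀ (k : ℕ), k1 ≤ k → ∀ (W : ℝ) (w : Site 2 → ℝ), Rt b k W w → ∀ t : MSt E,
    |VV g (Bx b k) w t| ≤ C' * W ∧ |ZZ φ (Φ k) g (Bx b k) w t| ≤ C' * W ∧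
    ∀ (i : ι) (e : Dir 2),
      |VV g (Bx b k) w (nxt U t i e) - VV g (Bx b k) w t| ≤ C' * W * Gk b k t.1 ∧
      |ZZ φ (Φ k) g (Bx b k) w (nxt U t i e) - ZZ φ (Φ k) g (Bx b k) w t| ≤
        C' * W * Gk b k t.1

/-- PACKET FVB (may assume SMS).  Near `x ∈ Bx b (k+1)`: `∑_z (A/4^k) B (C/4^j + C/4^k) ≤ C' A/4^j` (`dphi1`).  Far: for `z ∈ Bx b k` `Df Φ_j (x-z) = Df φ (x-z)` (`dout`, `x - z ∉ Bx b k`)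
and `far`: `∑_z (A/4^k) B C 2^k/(1+nm x)³`. -/
def FVB_stmt : Prop := ∀ (κ C : ℝ) (b : ℕ) (B : ℝ), 0 < κ → 1 ≤ C → 1 ≤ b → 1 ≤ B →
  ∃ C' : ℝ, 0 ≤ C' ∧ ∀ (E ι : Type) [Fintype ι] (U : Sys E ι) (a : ℝ) (S : Site 2 → E → ℝ)
  (φ : Site 2 → ℝ) (Φ : ℕ → Site 2 → ℝ) (k1 : ℕ), Dat U a B S → Scx a φ Φ κ C b k1 →
  ∀ (j k : ℕ), k1 ≤ j → j ≤ k → ∀ (A : ℝ) (v : Site 2 → ℝ), Rt b k A v → ∀ t : MSt E,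
    |fv Φ S b j k v t| ≤ C' * A * 4 ^ (k - j) * Nk b k t.1 ∧
    (t.1 ∉ Bx b (k + 1) → |fv Φ S b j k v t| ≤ C' * A * 2 ^ k / (1 + nm t.1) ^ 3)

/-- PACKET YVB (may assume INC, BDQ, BDZ, FVB, DRF).  (1) `Yv - κk VV = ZZ - QQ - VV S (v (κk - Φ_k))`; the last weight is at most `(A/4^k) C` on `Bx b k` (`near`), zero elsewhere: BDZ (1) again.
(2) BDQ, BDZ, and by INC (1) the increments of `κk VV` are at most `κ k 2B (A/4^k) ≤ C' A/2^k` on `Bx b k` (`k ≤ 2^k`), zero off it.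
(3) DRF, and `|Dv| ≤ |v_x||Th| + |μ_k x||VV| + |fv|`: `|Th| ≤ B + C + 2 C B²` (`|h0| ≤ C` by `hbd` at `0`), `μ_k ≤ C/4^k` and zero off `Bx b k`, FVB. (`4^(k-j) ≥ 1`.) -/
def YVB_stmt : Prop := ∀ (κ C : ℝ) (b : ℕ) (B : ℝ), 0 < κ → 1 ≤ C → 1 ≤ b → 1 ≤ B →
  ∃ C' : ℝ, 0 ≤ C' ∧ ∀ (E ι : Type) [Fintype ι] (U : Sys E ι) (a : ℝ) (S : Site 2 → E → ℝ)
  (φ : Site 2 → ℝ) (Φ : ℕ → Site 2 → ℝ) (k1 : ℕ), Dat U a B S → Scx a φ Φ κ C b k1 →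
  ∀ (j k : ℕ), k1 ≤ j → j ≤ k → ∀ (A : ℝ) (v : Site 2 → ℝ), Wt b k A v → ∀ t : MSt E,
    |Yv κ φ Φ S b j k v t - κ * k * VV S (Bx b k) v t| ≤ C' * A ∧
    (∀ (i : ι) (e : Dir 2), |Yv κ φ Φ S b j k v (nxt U t i e) - Yv κ φ Φ S b j k v t| ≤
      C' * A * Gk b k t.1) ∧
    |Dr U (Yv κ φ Φ S b j k v) t| ≤ C' * A * 4 ^ (k - j) * Nk b k t.1

/-- PACKET LMA (may assume SMS, INC, VIS, YVB).  A charge of scale `K` multiplied by a slowly varying function.  `c = VV S (Bx b K) v`, `Y = Yv .. K K v`, `Z' = Y - κ K c`; YVB with `j = k = K`: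
`|Z'| ≤ C' A`, `|Dr Y| ≤ C' A Nk b K x`, `|ΔY| ≤ C' A Gk b K x`, and `κ K |Δc| ≤ κ K 2B (A/4^K)` on `Bx b K`, `0` elsewhere (INC), so `|ΔZ'| ≤ C' A Gk b K x`.
`κ K Rw(G Dr c) = Rw(G Dr Y) - Rw(G Dr Z')`.  `|Rw (G Dr Y)| ≤ γ C' A Rw(Nk) ≤ C'' A γ (s+1)` (VIS, SMS (6)).  `Rw_parts`:
`Rw (G Dr Z') = Ex (G Z') - G Z'(s0) - Rw (Z' Dr G) - Rw (Gam G Z')`, the first two are at most `2 γ C' A`, the third `≤ C' A Rw(δ) ≤ C' A C' (s+1) ∑_Λ δ`, the last (`Gam_abs_le`)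
`≤ Rw(ρ C' A Gk b K) ≤ C'' A (s+1) ∑_Λ ρ Gk b K`. -/
def LMA_stmt : Prop := ∀ (κ C : ℝ) (b : ℕ) (B : ℝ), 0 < κ → 1 ≤ C → 1 ≤ b → 1 ≤ B →
  ∃ C' : ℝ, 0 ≤ C' ∧ ∀ (E ι : Type) [Fintype ι] (U : Sys E ι) (a : ℝ) (S : Site 2 → E → ℝ)
  (φ : Site 2 → ℝ) (Φ : ℕ → Site 2 → ℝ) (k1 : ℕ), Dat U a B S → Scx a φ Φ κ C b k1 →
  ∀ (K s : ℕ), k1 ≤ K → 1 ≤ K → K ≤ s → ∀ (N : ℕ) (s0 : MSt E) (A : ℝ) (v : Site 2 → ℝ),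
  Wt b K A v → ∀ (G : MSt E → ℝ) (γ : ℝ) (δ ρ : Site 2 → ℝ), (∀ t, |G t| ≤ γ) →
  (∀ x, 0 ≤ δ x) → (∀ x, 0 ≤ ρ x) → (∀ t, t.1 ∈ Bx b (s + 1) → |Dr U G t| ≤ δ t.1) →
  (∀ t, t.1 ∈ Bx b (s + 1) → ∀ (i : ι) (e : Dir 2), |G (nxt U t i e) - G t| ≤ ρ t.1) →
    |Rw U (Bx b (s + 1)) N (fun t => G t * Dr U (VV S (Bx b K) v) t) s0| ≤
      C' * A / K * (s + 1) * (γ + ∑ x ∈ Bx b (s + 1), δ x +
        ∑ x ∈ Bx b (s + 1), ρ x * Gk b K x)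

/-- Cutoff at scale `K`. -/
noncomputable def chi (b K : ℕ) (x : Site 2) : ℝ := max 0 (min 1 (2 - 2 * nm x / (b * 2 ^ K)))

/-- The cell of side `L` of a site. -/
def cel (L : ℕ) (z : Site 2) : Site 2 := fun i => z i / (L : ℤ)

/-- The corner of a cell. -/
def cor (L : ℕ) (α : Site 2) : Site 2 := fun i => (L : ℤ) * α i

/-- The charge of a cell. -/
noncomputable def Uc {E : Type*} (S : Site 2 → E → ℝ) (b k : ℕ) (v : Site 2 → ℝ) (L : ℕ) (α : Site 2)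
    (t : MSt E) : ℝ := ∑ z ∈ (Bx b k).filter (fun z => cel L z = α), v z * S z (t.2 z)

/-- The smooth weight of a cell (corner `z0`). -/
noncomputable def va (Φ : ℕ → Site 2 → ℝ) (b m m' k : ℕ) (z0 x : Site 2) : ℝ :=
  chi b (k + m') x * (Df (Φ (k - m)) (x - z0) - Df (Φ k) x)

/-- PACKET FNW.  `0 ≤ χ ≤ 1`, `χ = 0` where `nm x ≥ b 2^K`, `|χ x - χ y| ≤ 2 nm (x - y)/(b 2^K) ≤ 2 nm(x-y)/2^K` (`nm` is `1`-Lipschitz for itself), `K = k + m'`.  `F x = Df Φ_{k-m} (x - z0) - Df Φ_k x`: `|F| ≤ C/4^(k-m) + C/4^k ≤ 2 C 4^m/4^k`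
(`dphi1`), `|F x - F y| ≤ (C/8^(k-m) + C/8^k) nm (x-y)` (`lipk`).  So `|χ F| ≤ 2C 4^(m+m')/4^K` and the Lipschitz constant of `χ F` is at most `(4 C 4^(m+m') + 2 C 8^(m+m'))/8^K`. -/
def FNW_stmt : Prop := ∀ (κ C : ℝ) (b : ℕ), 1 ≤ C → 1 ≤ b → ∀ m m' : ℕ, ∃ A' : ℝ, 0 ≤ A' ∧
  ∀ (a : ℝ) (φ : Site 2 → ℝ) (Φ : ℕ → Site 2 → ℝ) (k1 : ℕ), Scx a φ Φ κ C b k1 →
  ∀ (k : ℕ), k1 + m ≤ k → ∀ z0 : Site 2, Wt b (k + m') A' (va Φ b m m' k z0)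

/-- PACKET FNE (may assume SMS, FVB).  Decomposition of the smooth double sum into cells of side `L = 2^(k-M)`, `M ≤ k`, `K = k + m'`, `m' ≥ 2`, `j = k - m ≥ k1`; `z` and `cor L (cel L z)` have distance `nm ≤ L` (`Int.ediv`/`emod`).
`fv - ∑_α U_α v_α(x) = χ ∑_z v z S_z (Df Φ_j (x - z) - Df Φ_j (x - z_α(z))) + (1 - χ) fv` (`χ = χ_K x`, `∑_z = ∑_α ∑_{z in cell α}`).  First: zero off `Bx b K`, at most `card (A/4^k) B (C/8^j) L = C' A 8^m 2^(-M)/4^k` (`lipk`, SMS (1)).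
Second: `χ = 1` on `Bx b (K-1)`; otherwise `x ∉ Bx b (k+1)` and FVB (2).  Number of cells: `cel L z` has coordinates in `[-b 2^M, b 2^M]`, so at most `(2 b 2^M + 1)² ≤ 9 b² 4^M`.  `|U_α| ≤ ∑_{Bx b k} |v| B ≤ C' A`. -/
def FNE_stmt : Prop := ∀ (κ C : ℝ) (b : ℕ) (B : ℝ), 0 < κ → 1 ≤ C → 1 ≤ b → 1 ≤ B →
  ∃ C' : ℝ, 0 ≤ C' ∧ ∀ (E ι : Type) [Fintype ι] (U : Sys E ι) (a : ℝ) (S : Site 2 → E → ℝ)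
  (φ : Site 2 → ℝ) (Φ : ℕ → Site 2 → ℝ) (k1 : ℕ), Dat U a B S → Scx a φ Φ κ C b k1 →
  ∀ (m m' M k : ℕ), k1 + m ≤ k → 2 ≤ m' → M ≤ k → ∀ (A : ℝ) (v : Site 2 → ℝ), Rt b k A v →
  (((Bx b k).image (cel (2 ^ (k - M)))).card : ℝ) ≤ C' * 4 ^ M ∧ ∀ t : MSt E,
    (∀ α, |Uc S b k v (2 ^ (k - M)) α t| ≤ C' * A) ∧
    |fv Φ S b (k - m) k v t - ∑ α ∈ (Bx b k).image (cel (2 ^ (k - M))),
      Uc S b k v (2 ^ (k - M)) α t * va Φ b m m' k (cor (2 ^ (k - M)) α) t.1| ≤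
      (if t.1 ∈ Bx b (k + m') then C' * A * 8 ^ m / 2 ^ M / 4 ^ k else 0) +
      (if t.1 ∈ Bx b (k + m' - 1) then 0 else C' * A * 2 ^ k / (1 + nm t.1) ^ 3)

/-- PACKET FIN (may assume SMS, INC, DRG, VIS, LMA, FNW, FNE; THE MAIN STEP).  Double sum with a smooth kernel, `j = k - m`.  Fix `η, m`; choose `m' ≥ 2`, then `M`, then `n ≥ M, m'` large.  `K = k + m'`, `L = 2^(k-M)`.
FNE: `fv = ∑_α U_α v_α(x) + error`; by VIS and SMS (1), (4) the contribution of the error to `Rw(G dd fv)` is at most `γ C'(s+1) A [4^m' 8^m 2^-M C' + C' 2^k ∑_{Λ \ Bx b (K-1)} 1/(1+nm)³]`, the last `≤ C' 2^-m'`: at most `A (s+1) η γ` by the choice of `m'`, then `M`.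
Main term: by FNW `Wt b K A' v_α`, so `dd v_α x = Dr (VV S (Bx b K) v_α)` (DRG (1), `ps`), and it is `∑_α Rw(G U_α Dr(VV S (Bx b K) v_α))`: LMA with `G' = G U_α`, weight bound `A'`, and (`U_α = VV S (cell) v`: `Dr U_α = v_x dd` or `0`, increments `≤ 2B |v_x|` on the cell, INC/DRG)
`|G'| ≤ γ C' A`, `|Dr G'| ≤ |G||Dr U_α| + |U_α||Dr G| + |Gam G U_α| ≤ γ (A/4^k) 1_{Bx b k} + C' A δ + 2B ρ (A/4^k) 1_{Bx b k}` (`Dr_mul`, `Gam_abs_le`),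
`|ΔG'| ≤ γ 2B (A/4^k) 1_{Bx b k} + C' A ρ` (write `G'(new) - G' = G(new) ΔU_α + U_α ΔG`).  Sums: `∑_Λ 1_{Bx b k}/4^k ≤ C'`, `ρ/4^k ≤ ρ Gk b k` on `Bx b k`, `Gk b K ≤ C'(m') Gk b k` (SMS (8)), `∑ (1_{Bx b k}/4^k) Gk b K ≤ C'` (`Gk ≤ 1`).
LMA has the factor `A'/K ≤ A'/k`; at most `C' 4^M` cells. -/
def FIN_stmt : Prop := ∀ (κ C : ℝ) (b : ℕ) (B : ℝ), 0 < κ → 1 ≤ C → 1 ≤ b → 1 ≤ B →
  ∀ (η : ℝ) (m : ℕ), 0 < η → ∃ n : ℕ, ∀ (E ι : Type) [Fintype ι] (U : Sys E ι) (a : ℝ)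
  (S : Site 2 → E → ℝ) (φ : Site 2 → ℝ) (Φ : ℕ → Site 2 → ℝ) (k1 : ℕ), Dat U a B S →
  Scx a φ Φ κ C b k1 → ∀ (k s : ℕ), k1 + m ≤ k → n ≤ k → 1 ≤ k → k + n ≤ s →
  ∀ (N : ℕ) (s0 : MSt E) (A : ℝ) (v : Site 2 → ℝ), Wt b k A v →
  ∀ (G : MSt E → ℝ) (γ : ℝ) (δ ρ : Site 2 → ℝ), (∀ t, |G t| ≤ γ) →
  (∀ x, 0 ≤ δ x) → (∀ x, 0 ≤ ρ x) → (∀ t, t.1 ∈ Bx b (s + 1) → |Dr U G t| ≤ δ t.1) →
  (∀ t, t.1 ∈ Bx b (s + 1) → ∀ (i : ι) (e : Dir 2), |G (nxt U t i e) - G t| ≤ ρ t.1) →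
    |Rw U (Bx b (s + 1)) N (fun t => G t * (dd U a t * fv Φ S b (k - m) k v t)) s0| ≤
      A * (s + 1) * (η * γ + n / k * (γ + ∑ x ∈ Bx b (s + 1), δ x +
        ∑ x ∈ Bx b (s + 1), ρ x * Gk b k x))

/-- PACKET MRT (may assume SMS, DRG, INC, VIS).  The charges of a harmonic function move little.  `D = VV T h_k - VV T h_k (s0)` (constants have drift `0`): `Dr D = 0` (DRG (1), `hT`),
`|D| ≤ C'`, `|ΔD| ≤ 2 B C/4^k` on `Bx b k`, `0` off it, so `Dr (D²) = 2 D Dr D + Gam D D ≤ C'/16^k` on `Bx b k`, `= 0` off it.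
`g t = M0 - Φ_k x + ∑_{y∈Λ} Df Φ_k y S_y`, `M0 = κ s + C + C'(s+1)`, satisfies `Dr g = - μ_k x` on `Λ` (`stp_pos`, DRG (1), `ps`) and `0 ≤ g ≤ C'(s+1)` where `x ∈ Bx b (s+2)` (`low`, `up`, `|Df Φ_k y| ≤ C/(1+nm y)²`, SMS (2)).
`tele_Dr` for `D² g` and `Dr_mul`: `Rw(μ_k D²) = -Ex(D² g) + D² g(s0) + Rw(g Dr D²) + Rw(Gam (D²) g)`; `D²(s0) = 0`, `Ex (D² g) ≥ 0` (`Ex_mono_inv`; for `s0.1 ∉ Λ` everything is `0`),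
`Rw(g Dr D²) ≤ C'(s+1) (C'/16^k) Rw(1_{Bx b k}) ≤ C'(s+1)²/4^k` (VIS), and on `Bx b k`: `|Δ(D²)| ≤ C'/4^k`, `|Δg| ≤ C/(1+nm x) + 2B C/4^k` (`gradP`, `dphi1`), so
`|Rw(Gam)| ≤ C'(s+1) ∑_{x∈Bx b k} (1/4^k)(C/(1+nm x) + 2BC/4^k) ≤ C'(s+1)/2^k` (SMS (3)). -/
def MRT_stmt : Prop := ∀ (κ C : ℝ) (b : ℕ) (B : ℝ), 0 < κ → 1 ≤ C → 1 ≤ b → 1 ≤ B →
  ∃ C' : ℝ, 0 ≤ C' ∧ ∀ (E ι : Type) [Fintype ι] (U : Sys E ι) (a : ℝ) (S T : Site 2 → E → ℝ)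
  (φ : Site 2 → ℝ) (Φ : ℕ → Site 2 → ℝ) (k1 : ℕ), Dat U a B S → Scx a φ Φ κ C b k1 →
  (∀ z e, |T z e| ≤ B) → (∀ z e, av U z (T z) e = T z e) →
  ∀ (k s : ℕ), k1 ≤ k → k ≤ s → ∀ (N : ℕ) (s0 : MSt E),
    Rw U (Bx b (s + 1)) N (fun t => La a (Φ k) t.1 *
      (VV T (Bx b k) (hk Φ k) t - VV T (Bx b k) (hk Φ k) s0) ^ 2) s0 ≤
      C' * (s + 1) ^ 2 / 2 ^ k

/-- PACKET YYB (may assume SMS, INC, PSA, BDZ, YVB).  Bounds for `YY` (`j = k - m ≥ k1`).  `h_k` satisfies `Wt b k C h_k` (`hS`, `h1`, `hL`).  `Yv`: YVB.  `VV R h_k`: `|.| ≤ C' BR`, increments `≤ 2 BR C/4^k` on `Bx b k`.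
`ZZ .. T ..`: BDZ with `g = T`.  The bilinear form `BL S T Λ (Bx b k) (h_k z Ek y z)`: with `w z = h_k z T_z` (`Rt b k (C B) w`), `|BL| ≤ B ∑_{y∈Λ} |∑_z w z Ek y z| ≤ C'` (PSA (1)); increments (INC (3)):
`|α| |∑_z w z Ek x z| ≤ C' Gk b k x` (PSA (2)); for `x ∈ Bx b k`: `|β| |h_k x| ∑_{y∈Λ} |Ek y x| B ≤ C'(k+1)/4^k ≤ C'/2^k` (PSA (5)) and `|α β h_k x Ek x x| ≤ C'/4^k`. -/
def YYB_stmt : Prop := ∀ (κ C : ℝ) (b : ℕ) (B : ℝ), 0 < κ → 1 ≤ C → 1 ≤ b → 1 ≤ B →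
  ∃ C' : ℝ, 0 ≤ C' ∧ ∀ (E ι : Type) [Fintype ι] (U : Sys E ι) (a BR : ℝ)
  (S R T : Site 2 → E → ℝ) (ep : Site 2 → ℝ) (φ : Site 2 → ℝ) (Φ : ℕ → Site 2 → ℝ) (k1 : ℕ),
  Dat U a B S → Scx a φ Φ κ C b k1 → Poi U a (Df φ 0) B BR S R T ep →
  ∀ (m k s : ℕ), k1 + m ≤ k → k ≤ s → ∀ t : MSt E,
    |YY κ φ Φ S R T b m k s t - κ * k * ck Φ S b k t| ≤ C' * (1 + BR) ∧
    ∀ (i : ι) (e : Dir 2), |YY κ φ Φ S R T b m k s (nxt U t i e) - YY κ φ Φ S R T b m k s t| ≤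
      C' * (1 + BR) * Gk b k t.1

/-- PACKET DYY (may assume DRG, DRF).  Drift of `YY` for `x ∈ Λ` (`j = k - m`, `v = h_k`).  DRF: `Dr Yv = h_k x Th - μ_k c_k + dd fv + err`, `|err| ≤ C' (1/2^m + 1/4^(k-m))/4^k` on `Bx b (k+1)`, zero off it.
`Dr (VV R h_k) = h_k x (av R - R)` (`h_k = 0` off `Bx b k`), `Dr ZZ(T) = h_k x T_x - μ_k VV T h_k + dd ∑_z h_k z T_z Ek x z` (`hT` kills the last term of DRG (2)),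
`Dr BL = dd ∑_z h_k z T_z Ek x z + h_k x Ek x x · cv U S T` (DRG (3), `ps`, `hT`; `x ∈ Λ`), `Ek x x = h0 - Df Φ_k x`.  Sum: `h_k x [Th - T_x + h0 cv U S T - (av R - R)] - μ_k (c_k - VV T h_k) + dd fv + err - h_k x Df Φ_k x cv`,
the bracket is at most `ep x` (`Poi.eq`), the last term at most `(C/4^k)(C/4^k) 4 B²` on `Bx b k`, and `1/4^k ≤ 1/4^(k-m)`. -/
def DYY_stmt : Prop := ∀ (κ C : ℝ) (b : ℕ) (B : ℝ), 0 < κ → 1 ≤ C → 1 ≤ b → 1 ≤ B →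
  ∃ C' : ℝ, 0 ≤ C' ∧ ∀ (E ι : Type) [Fintype ι] (U : Sys E ι) (a BR : ℝ)
  (S R T : Site 2 → E → ℝ) (ep : Site 2 → ℝ) (φ : Site 2 → ℝ) (Φ : ℕ → Site 2 → ℝ) (k1 : ℕ),
  Dat U a B S → Scx a φ Φ κ C b k1 → Poi U a (Df φ 0) B BR S R T ep →
  ∀ (m k s : ℕ), k1 + m ≤ k → k ≤ s → ∀ t : MSt E, t.1 ∈ Bx b (s + 1) →
    |Dr U (YY κ φ Φ S R T b m k s) t - (-(La a (Φ k) t.1 *
        (ck Φ S b k t - VV T (Bx b k) (hk Φ k) t)) + dd U a t * fv Φ S b (k - m) k (hk Φ k) t)| ≤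
      (if t.1 ∈ Bx b (k + 1) then C' * (1 / 2 ^ m + 1 / 4 ^ (k - m)) / 4 ^ k else 0) +
        |hk Φ k t.1| * ep t.1

/-- PACKET SQM (may assume SMS, VIS, FVB, FIN, MRT, YYB, DYY).  Second moment of a charge.  `C1, C2` depend only on `κ, C, b, B`; `C'` also on `BR, m`.  Choose `m` with `2^-m ≤ η`, then FIN with `η1` a small multiple of `η`; `n` large, also so that `4^(m-k) ≤ η`,
`C'(1+BR) ≤ k`.  `Y = YY`, `w t = VV T h_k t`, `w0 = w s0`, `c = c_k`; `|c|, |w| ≤ C1`.  `Y = κ k c + Z`, `|Z| ≤ C1(1 + BR) =: C'`, `|Y| ≤ C1 k`, `|ΔY| ≤ C' Gk b k x`.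
`Ex (Y²) = Y(s0)² + Rw (2 Y Dr Y + Gam Y Y)` (`tele_Dr`, `Dr_mul`), `Rw |Gam Y Y| ≤ C' Rw(Gk²) ≤ C'(s+1)` (VIS, SMS (7)).  `Dr Y = -μ_k (c - w) + dd fv + err` (DYY):
(i) `-2 Y μ_k (c - w) = -2κk μ_k c² + 2κk μ_k c w - 2 Z μ_k (c - w) ≤ κ k μ_k w²/2 + C' μ_k` (`μ_k ≥ 0`), `w² ≤ 2 w0² + 2 (w - w0)²`; `Rw μ_k ≤ C1 (s+1)` (VIS, `mu1`, `muS`), MRT: total `≤ C1 k (s+1) w0² + C1 k (s+1)²/2^k + C'(s+1)`.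
(ii) `2 Rw(Y dd fv)`: FIN with `G = Y`, `γ = C1 k`, `A = C`, `ρ = C' Gk b k`, `δ x = C' Nk b k x` (`|Dr Y| ≤ |μ_k| 2 C1 + |fv| + |err|`, FVB, `|h_k| ep ≤ C BR/4^k` on `Bx b k`): `≤ (s+1)(C1 η1 k + C')`.
(iii) `2 |Y| |err|`: `≤ 2 C1 k C1(s+1) [C1 (2^-m + 4^(m-k)) + ∑_{Bx b k} |h_k| ep]` (VIS).
Then `κ² k² c² ≤ 2 Y² + 2 Z²` under `Ex` and `Y(s0)² ≤ 2 κ² k² c(s0)² + 2 Z²`; divide by `κ² k²/2`. -/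
def SQM_stmt : Prop := ∀ (κ C : ℝ) (b : ℕ) (B : ℝ), 0 < κ → 1 ≤ C → 1 ≤ b → 1 ≤ B →
  ∃ C2 : ℝ, 0 ≤ C2 ∧ ∀ (η BR : ℝ), 0 < η → 0 ≤ BR → ∃ n : ℕ, ∀ (E ι : Type) [Fintype ι]
  (U : Sys E ι) (a : ℝ) (S R T : Site 2 → E → ℝ) (ep : Site 2 → ℝ) (φ : Site 2 → ℝ)
  (Φ : ℕ → Site 2 → ℝ) (k1 : ℕ), Dat U a B S → Scx a φ Φ κ C b k1 →
  Poi U a (Df φ 0) B BR S R T ep → ∀ (k s : ℕ), k1 + n ≤ k → 1 ≤ k → k + n ≤ s →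
  ∀ (N : ℕ) (s0 : MSt E),
    Ex U (Bx b (s + 1)) N (fun t => ck Φ S b k t ^ 2) s0 ≤ C2 * ck Φ S b k s0 ^ 2 +
      (s + 1) / k ^ 2 * (n + C2 * k * (η + ∑ x ∈ Bx b k, |hk Φ k x| * ep x +
        VV T (Bx b k) (hk Φ k) s0 ^ 2)) + C2 * (s + 1) ^ 2 / (k * 2 ^ k)

/-- PACKET SQS (may assume SMS, SQM).  Sum over the scales.  `|c_k| ≤ C4` always (`h1`, card).  Choose `δ` with `2 C4 δ ≤ ε/8`, then `η'` and `η`, then (given `BR`) `n` from SQM with `η'`.  Scales `k < max(δ s, k1 + n, 1)` or `k > s - n`: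
`|Ex c_k - c_k s0| ≤ 2 C4`.  Other scales: `|Ex c_k| ≤ √(Ex c_k²)` (expand `0 ≤ Ex (c - Ex c)²`), SQM and `√(x+y+z+..) ≤ √x + √y + ..`:
`≤ (√C2 + 1)|c_k s0| + √((s+1) n)/k + √(C2 (s+1)/k) (√η' + √ε_k + |w_k|) + √(C2 (s+1)²/(k 2^k))`, `ε_k = ∑ |h_k| ep`, `w_k = VV T h_k s0`.  `1/k ≤ 1/(δ s)`, `(s+1)/k ≤ 2/δ`: the sum over `k < s` is at most
`(√C2+1) ∑|c_k s0| + √((s+1) n)/δ + √(2 C2/δ)(√η' s + √s √(∑ ε_k) + ∑|w_k|) + √C2 (s+1) ∑_{k ≥ δ s} 2^(-k/2)`.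
`c_k s0`, `w_k s0` differ from the values at `(0, e0)` by at most `2 B C · card{z : s0.2 z ≠ e0 z}/4^k` (bounded sum). -/
def SQS_stmt : Prop := ∀ (κ C : ℝ) (b : ℕ) (B : ℝ), 0 < κ → 1 ≤ C → 1 ≤ b → 1 ≤ B →
  ∀ ε : ℝ, 0 < ε → ∃ η : ℝ, 0 < η ∧ ∀ (E ι : Type) [Fintype ι] (U : Sys E ι) (a BR : ℝ)
  (S R T : Site 2 → E → ℝ) (ep : Site 2 → ℝ) (φ : Site 2 → ℝ) (Φ : ℕ → Site 2 → ℝ) (k1 : ℕ),
  Dat U a B S → Scx a φ Φ κ C b k1 → Poi U a (Df φ 0) B BR S R T ep →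
  ∀ (e0 : Site 2 → E) (s0 : MSt E), {z | s0.2 z ≠ e0 z}.Finite → ∃ s1 : ℕ, ∀ s, s1 ≤ s →
  ∑ k ∈ Finset.Ico k1 s, (|ck Φ S b k (0, e0)| + |VV T (Bx b k) (hk Φ k) (0, e0)| +
    ∑ x ∈ Bx b k, |hk Φ k x| * ep x) ≤ η * s → ∀ N : ℕ,
  ∑ k ∈ Finset.Ico k1 s, |Ex U (Bx b (s + 1)) N (ck Φ S b k) s0 - ck Φ S b k s0| ≤ ε * s

/-- PACKET VSM (may assume DRG).  Lower bound for the visits to `0`.  `f = φ - Φ_s`, `La a f = [x = 0] - μ_s`, `Df f = (Df φ - Df Φ_{k1}) + ∑_{k1≤k<s} h_k` (telescoping).  `stp_pos`, `tele_Dr`: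
`Rw [x = 0] = Ex f - f(x0) + Rw μ_s - Rw(dd (Df φ - Df Φ_{k1})) - ∑_k Rw(dd h_k)`; `dd h_k x = Dr c_k` (DRG (1), `ps`, `hS`), so `Rw(dd h_k) = Ex c_k - c_k s0`; likewise `dd (Df φ - Df Φ_{k1})` is the drift of `VV S (Bx b k1) (Df φ - Df Φ_{k1})`
(`dout`), bounded by `B 2 C card` (`hbd`, `dphi1`).  `Rw μ_s ≥ 0`, `-f(x0) ≥ κ s - φ x0` (`low`), `f = 0` off `Bx b s` (`out`) and `f ≥ -C - (κ s + C)` on `Λ` (`plow`, `up`): `Ex f ≥ -(κ s + 2C) Ex one` (on states in `Λ` or outside). -/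
def VSM_stmt : Prop := ∀ (E ι : Type) [Fintype ι] (U : Sys E ι) (a : ℝ) (S : Site 2 → E → ℝ)
  (φ : Site 2 → ℝ) (Φ : ℕ → Site 2 → ℝ) (κ C : ℝ) (b k1 : ℕ) (B : ℝ), Dat U a B S →
  Scx a φ Φ κ C b k1 → ∀ (s : ℕ), k1 ≤ s → ∀ (N : ℕ) (s0 : MSt E), s0.1 ∈ Bx b (s + 1) →
    κ * s - φ s0.1 - (κ * s + 2 * C) * Ex U (Bx b (s + 1)) N (one (Bx b (s + 1))) s0 -
      4 * B * C * (Bx b k1).card -
      ∑ k ∈ Finset.Ico k1 s, |Ex U (Bx b (s + 1)) N (ck Φ S b k) s0 - ck Φ S b k s0| ≤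
    Rw U (Bx b (s + 1)) N (fun t => if t.1 = 0 then 1 else 0) s0

/-- PACKET HIE (pure operators, as `Helper61/EXC/HIT.lean` and `Helper19/EXC/EXI.lean`).  (1) Induction on `N`, `Rw_succ`.  If `s0.1 = 0` then `hp = 1` and the hypothesis applies.  If `s0.1 ∉ Λ` the left side is `0` and `hp ≥ 0`.
If `0 ≠ s0.1 ∈ Λ` then `Rw_{N+1} = stp (Rw_N) ≤ stp (M hp N) = M hp (N+1)`.  (2) `f x = x_0² + x_1²`, `La a f = 1`, `Df f = 0`, `stp_pos`, `tele`; `Ex_m (one Λ)` is nonincreasing in `m`, `∑_{m<N} Ex_m (one Λ) = Ex_N f - f(x0) ≤ 2 (R+1)²`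
(positions stay in `box 2 (R+1)`, `Ex_mono_inv`).  (3) `hp` is nondecreasing in `N` (induction), `0 ≤ hp ≤ 1`. -/
def HIE_stmt : Prop := ∀ (E ι : Type) [Fintype ι] (U : Sys E ι), U.Ok →
  (∀ (Λ : Finset (Site 2)) (M : ℝ), 0 ≤ M →
    (∀ (N : ℕ) (t : MSt E), t.1 = 0 → Rw U Λ N (fun t => if t.1 = 0 then 1 else 0) t ≤ M) →
    ∀ (N : ℕ) (s0 : MSt E), Rw U Λ N (fun t => if t.1 = 0 then 1 else 0) s0 ≤ M * hp U N s0) ∧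
  (∀ (R N : ℕ) (s0 : MSt E), N * Ex U (box 2 R) N (one (box 2 R)) s0 ≤ 2 * (R + 1) ^ 2) ∧
  ∀ (N : ℕ) (s0 : MSt E), 0 ≤ hp U N s0 ∧ hp U N s0 ≤ 1 ∧ hp U N s0 ≤ hp U (N + 1) s0

/-- PACKET GQ (may assume SQS, VSM, VIS, HIE).  `ε = κ/8`, `η` from SQS, `c0 = min 1 (κ/(4 C' + 4))` with `C'` from VIS.  Fix `e0, s0`; take `s` in the frequent set, `s ≥ s1, k1, 1`, `s0.1 ∈ Bx b (s+1)` and `κ s/8 ≥ |φ s0.1| + 4 B C card (Bx b k1)`; then `N` with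
`(κ s + 2C) Ex one ≤ κ s/8` (HIE (2), `R = b 2^(s+1)`).  VSM: `Rw [x=0] ≥ κ s/2`.  VIS with `g = [x = 0]`: `Rw [x = 0] ≤ C'(s+1)` from every state, HIE (1): `κ s/2 ≤ C' (s+1) hp U N s0`, `s + 1 ≤ 2 s`. -/
def GQ_stmt : Prop := ∀ (κ C : ℝ) (b : ℕ) (B : ℝ), 0 < κ → 1 ≤ C → 1 ≤ b → 1 ≤ B →
  ∃ c0 η : ℝ, 0 < c0 ∧ c0 ≤ 1 ∧ 0 < η ∧ ∀ (E ι : Type) [Fintype ι] (U : Sys E ι) (a BR : ℝ)
  (S R T : Site 2 → E → ℝ) (ep : Site 2 → ℝ) (φ : Site 2 → ℝ) (Φ : ℕ → Site 2 → ℝ) (k1 : ℕ),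
  Dat U a B S → Scx a φ Φ κ C b k1 → Poi U a (Df φ 0) B BR S R T ep → ∀ e0 : Site 2 → E,
  (∃ᶠ s : ℕ in Filter.atTop, ∑ k ∈ Finset.Ico k1 s, (|ck Φ S b k (0, e0)| +
    |VV T (Bx b k) (hk Φ k) (0, e0)| + ∑ x ∈ Bx b k, |hk Φ k x| * ep x) ≤ η * s) →
  ∀ s0 : MSt E, {z | s0.2 z ≠ e0 z}.Finite → ∃ N : ℕ, c0 ≤ hp U N s0

end Pool.Agent.Helper99.MKV
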