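import Pool.Agent.Helper99.MKV.GoalsA
import Pool.Agent.Helper99.EXC.Main

/-! # MKV: assembly of the scale package -/

open Finset

namespace Pool.Agent.Helper99.MKV

open Pool.Agent.Helper99.ERW Pool.Agent.Helper99.EXC

lemma nm_nonneg (x : Site 2) : 0 ≤ nm x := by
  unfold nm; exact le_max_of_le_left (abs_nonneg _)

theorem Scl_mono {a : ℝ} {φ : Site 2 → ℝ} {Φ : ℕ → Site 2 → ℝ} {κ C C' : ℝ} {b k1 : ℕ}
    (h : Scl a φ Φ κ C b k1) (hC : C ≤ C') : Scl a φ Φ κ C' b k1 where
  kpos := h.kpos
  cone := h.cone.trans hC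
  bone := h.bone
  lap := h.lap
  even := h.even
  zero := h.zero
  plow := fun x => by linarith [h.plow x]
  hbd := fun x => (h.hbd x).trans (by
    have := nm_nonneg x
    gcongr)
  form := fun B f g => (h.form B f g).trans (by gcongr)
  ge := h.ge
  low := h.low
  mu0 := h.mu0
  mu1 := fun k hk x => (h.mu1 k hk x).trans (by gcongr)
  muS := h.muS
  out := h.out
  dout := h.dout
  near := fun k hk x hx => (h.near k hk x hx).trans hC
  up := fun k s hk hs x hx => (h.up k s hk hs x hx).trans (by linarith)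
  psiA := fun k hk z hz x => (h.psiA k hk z hz x).trans (by gcongr)
  psiO := fun k hk z hz x hx => (h.psiO k hk z hz x hx).trans hC
  psi2 := fun k hk x => (h.psi2 k hk x).trans (by gcongr)
  dphi1 := fun k hk x => (h.dphi1 k hk x).trans (by gcongr)
  dphi2 := fun k hk x => (h.dphi2 k hk x).trans (by
    have := nm_nonneg x
    gcongr)
  far := fun k hk z hz y hy => (h.far k hk z hz y hy).trans (by
    have := nm_nonneg y
    gcongr)
  hS := h.hS
  h1 := fun k hk x => (h.h1 k hk x).trans (by gcongr)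
  hL := fun k hk x y => (h.hL k hk x y).trans (by
    have := nm_nonneg (x - y)
    gcongr)
  h0 := h.h0

theorem SCX (hGRK : GRK_stmt) (hFMK : FMK_stmt) (hLPK : LPK_stmt) : SCX_stmt := by
  intro a ha0 ha1
  obtain ⟨C0, hK⟩ := ker_all a ha0 ha1
  obtain ⟨C, b, k1, h⟩ := scales a (ph a) (kap a) C0 ha0 ha1 hK
  obtain ⟨C', hG⟩ := hGRK a (ph a) (kap a) C0 hK C b k1 h
  set M : ℝ := max (2 * C) C' with hM
  have hC0 : 1 ≤ C := h.cone
  have hCM : C ≤ M := by
    rw [hM]; exact le_max_of_le_left (by linarith)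
  have h2CM : 2 * C ≤ M := le_max_left _ _
  have hC'M : C' ≤ M := le_max_right _ _
  refine ⟨ph a, Phi (kap a) (ph a), kap a, M, b, k1, ?_⟩
  have hs : Scl a (ph a) (Phi (kap a) (ph a)) (kap a) M b k1 := Scl_mono h hCM
  refine { hs with evk := ?_, formk := ?_, lipk := ?_, gradP := ?_, gradN := ?_, gradF := ?_ }
  · intro k x
    unfold Phi
    rw [h.even x]
  · intro k hk B f g
    exact (hFMK a (ph a) _ (kap a) C b k1 h k hk B f g).trans (by gcongr)
  · intro k hk x y
    refine (hLPK a (ph a) _ (kap a) C b k1 h k hk x y).trans ?_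
    have := nm_nonneg (x - y)
    gcongr
  · intro k hk x e
    refine (hG k hk x e).1.trans ?_
    have := nm_nonneg x
    gcongr
  · intro k hk x e
    refine (hG k hk x e).2.1.trans ?_
    gcongr
  · intro k hk z hz x hx e
    refine ((hG k hk x e).2.2 z hz hx).trans ?_
    have := nm_nonneg x
    gcongr

end Pool.Agent.Helper99.MKV
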